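import Pool.Agent.T6.H60.BD.P
import Pool.Agent.T6.H79.BZ4.Vol

set_option autoImplicit false

/-!
# Barnes zeta functions, fourth moment for all weights, part 1: spacing of the resonances
-/

namespace Pool.Agent.T6.H79.BZ5

open Finset Filter Topology MeasureTheory
open Pool.Agent.T6.H60.BC Pool.Agent.T6.H60.BD Pool.Agent.T6.H79.BZ4

/-- the pointwise criterion for arguments bounded from below -/
lemma pt_ge {r : ℕ} {w : Fin r → ℝ} {σ β : ℝ} (h : PtB w σ β) {ε c : ℝ} (hε : 0 < ε)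
    (hc : 0 < c) : ∃ C : ℝ, 0 < C ∧ ∀ y δ : ℝ, c ≤ y → 0 < δ → δ ≤ 1 →
      pr w δ y ≤ C * δ ^ (-(2 * σ)) * (y / δ) ^ (β + ε) := by
  obtain ⟨C, hC, h⟩ := h ε hε
  obtain ⟨t, ht⟩ := exists_nat_ge (1 / c + 1)
  have hc1 : 0 < 1 / c := by positivity
  have ht0 : (1 : ℝ) ≤ t := by linarith
  have ht1 : 1 ≤ t := by exact_mod_cast ht0
  refine ⟨((t : ℝ) ^ 2) ^ r * (C + 1) * (t : ℝ) ^ (β + ε), by positivity, fun y δ hy hδ hδ1 => ?_⟩
  have hy0 : 0 < y := hc.trans_le hy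
  have h1 : 1 ≤ (t : ℝ) * y := by
    have h2 : 1 / c ≤ t := by linarith
    rw [div_le_iff₀ hc] at h2
    exact h2.trans (mul_le_mul_of_nonneg_left hy (by positivity))
  have h2 := (pr_nat_mul w hδ ht1 y).trans
    (mul_le_mul_of_nonneg_left (h _ δ h1 hδ hδ1) (by positivity))
  refine h2.trans ?_
  have e1 : (t : ℝ) * y / δ = t * (y / δ) := by ring
  rw [e1, Real.mul_rpow (by positivity) (by positivity)]
  calc ((t : ℝ) ^ 2) ^ r * (C * δ ^ (-(2 * σ)) * ((t : ℝ) ^ (β + ε) * (y / δ) ^ (β + ε)))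
      ≤ ((t : ℝ) ^ 2) ^ r * ((C + 1) * δ ^ (-(2 * σ)) * ((t : ℝ) ^ (β + ε) * (y / δ) ^ (β + ε))) := by
        gcongr
        linarith
    _ = _ := by ring

/-- the least distance -/
noncomputable def Lam {r : ℕ} (C σ β : ℝ) (κ : Fin r → ℕ) (m : ℕ) : ℝ :=
  (1 / 2 : ℝ) ^ m * (((4 : ℝ) ^ r)⁻¹ * (∏ j, (2 : ℝ) ^ κ j) ^ 2 * ((1 / 2 : ℝ) ^ m) ^ (2 * σ) / C) ^
    (1 / β)

lemma Lam_pos {r : ℕ} {C σ β : ℝ} (hC : 0 < C) (κ : Fin r → ℕ) (m : ℕ) : 0 < Lam C σ β κ m := by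
  unfold Lam
  have : 0 < ∏ j, (2 : ℝ) ^ κ j := Finset.prod_pos fun j _ => by positivity
  positivity

lemma Lam_rpow {r : ℕ} {C σ β : ℝ} (hC : 0 < C) (hβ : 0 < β) (κ : Fin r → ℕ) (m : ℕ) :
    (∏ j, (2 : ℝ) ^ κ j) ^ 2 = C * (4 : ℝ) ^ r * Lam C σ β κ m ^ β *
      ((1 / 2 : ℝ) ^ m) ^ (-(β + 2 * σ)) := by
  have hP : 0 < ∏ j, (2 : ℝ) ^ κ j := Finset.prod_pos fun j _ => by positivity
  obtain ⟨P, hPd⟩ : ∃ P, P = ∏ j, (2 : ℝ) ^ κ j := ⟨_, rfl⟩
  unfold Lam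
  rw [← hPd] at hP ⊢
  obtain ⟨x, hx⟩ : ∃ x : ℝ, x = (1 / 2 : ℝ) ^ m := ⟨_, rfl⟩
  have hx0 : 0 < x := by rw [hx]; positivity
  rw [← hx, Real.mul_rpow hx0.le (by positivity), ← Real.rpow_mul (by positivity),
    one_div_mul_cancel hβ.ne', Real.rpow_one]
  have h1 : x ^ β * x ^ (2 * σ) * x ^ (-(β + 2 * σ)) = 1 := by
    rw [← Real.rpow_add hx0, ← Real.rpow_add hx0]
    have : β + 2 * σ + -(β + 2 * σ) = 0 := by ring
    rw [this, Real.rpow_zero]
  calc P ^ 2 = P ^ 2 * (x ^ β * x ^ (2 * σ) * x ^ (-(β + 2 * σ))) := by rw [h1, mul_one]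
    _ = _ := by field_simp

/-- resonances are spaced -/
lemma spaced {r : ℕ} {w : Fin r → ℝ} {σ β c C : ℝ} (hβ : 0 < β) (hC : 0 < C) (hc : 0 < c)
    (h : ∀ y δ : ℝ, c ≤ y → 0 < δ → δ ≤ 1 → pr w δ y ≤ C * δ ^ (-(2 * σ)) * (y / δ) ^ β)
    {κ : Fin r → ℕ} {m : ℕ} (hκ : ∀ j, κ j ≤ m) {y : ℝ} (hy : c ≤ y)
    (hyκ : ∀ j, nd (w j * y) ≤ 2 * (1 / 2 : ℝ) ^ κ j) : Lam C σ β κ m ≤ y := by
  have hP : 0 < ∏ j, (2 : ℝ) ^ κ j := Finset.prod_pos fun j _ => by positivity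
  obtain ⟨P, hPd⟩ : ∃ P, P = ∏ j, (2 : ℝ) ^ κ j := ⟨_, rfl⟩
  obtain ⟨x, hx⟩ : ∃ x : ℝ, x = (1 / 2 : ℝ) ^ m := ⟨_, rfl⟩
  have hx0 : 0 < x := by rw [hx]; positivity
  have hx1 : x ≤ 1 := by rw [hx]; exact pow_le_one₀ (by norm_num) (by norm_num)
  have hy0 : 0 < y := hc.trans_le hy
  have h1 : ((4 : ℝ) ^ r)⁻¹ * P ^ 2 ≤ pr w x y := by
    unfold pr
    have e1 : ((4 : ℝ) ^ r)⁻¹ * P ^ 2 = ∏ j : Fin r, ((2 * (1 / 2 : ℝ) ^ κ j) ^ 2)⁻¹ := by
      have e2 : ∀ j : Fin r, ((2 * (1 / 2 : ℝ) ^ κ j) ^ 2)⁻¹ = (4 : ℝ)⁻¹ * ((2 : ℝ) ^ κ j) ^ 2 := by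
        intro j
        rw [one_div, inv_pow, mul_pow, inv_pow, mul_inv, inv_inv]
        norm_num
      simp_rw [e2]
      rw [Finset.prod_mul_distrib, Finset.prod_pow, hPd]
      simp
    rw [e1]
    refine Finset.prod_le_prod (fun j _ => by positivity) fun j _ => ?_
    have h2 : x ≤ 2 * (1 / 2 : ℝ) ^ κ j := by
      have h3 : x ≤ (1 / 2 : ℝ) ^ κ j := by
        rw [hx]
        exact pow_le_pow_of_le_one (by norm_num) (by norm_num) (hκ j)
      have : 0 < (1 / 2 : ℝ) ^ κ j := by positivity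
      linarith
    have h4 : 0 < max x (nd (w j * y)) := lt_max_of_lt_left hx0
    apply inv_anti₀ (by positivity)
    apply pow_le_pow_left₀ h4.le
    exact max_le h2 (hyκ j)
  have h2 := h1.trans (h y x hy hx0 hx1)
  have h3 : ((4 : ℝ) ^ r)⁻¹ * P ^ 2 * x ^ (2 * σ) / C ≤ (y / x) ^ β := by
    rw [div_le_iff₀ hC]
    have h4 : x ^ (-(2 * σ)) * x ^ (2 * σ) = 1 := by
      rw [← Real.rpow_add hx0]
      simp
    calc ((4 : ℝ) ^ r)⁻¹ * P ^ 2 * x ^ (2 * σ) ≤ (C * x ^ (-(2 * σ)) * (y / x) ^ β) * x ^ (2 * σ) := by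
          gcongr
      _ = C * (x ^ (-(2 * σ)) * x ^ (2 * σ)) * (y / x) ^ β := by ring
      _ = _ := by rw [h4]; ring
  unfold Lam
  rw [← hPd, ← hx]
  have h5 : (((4 : ℝ) ^ r)⁻¹ * P ^ 2 * x ^ (2 * σ) / C) ^ (1 / β) ≤ y / x := by
    have hP0 : 0 < P := by rw [hPd]; exact hP
    calc _ ≤ ((y / x) ^ β) ^ (1 / β) := Real.rpow_le_rpow (by positivity) h3 (by positivity)
      _ = y / x := by
          rw [← Real.rpow_mul (by positivity), mul_one_div_cancel hβ.ne', Real.rpow_one]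
  calc x * _ ≤ x * (y / x) := by gcongr
    _ = y := by field_simp

/-- the volume of a level set in an interval -/
theorem EE_win {r : ℕ} {w : Fin r → ℝ} {j₀ : Fin r} (hw : 0 < w j₀) {c g : ℝ} (hc : 0 < c)
    (hwc : w j₀ * c ≤ 1 / 4) (hg : c ≤ g) {κ : Fin r → ℕ}
    (hsep : ∀ h : ℝ, c ≤ h → (∀ j, nd (w j * h) ≤ 2 * (1 / 2 : ℝ) ^ κ j) → g ≤ h)
    (x : ℝ) {H : ℝ} (hH : 0 ≤ H) :
    volume (EE w κ ∩ Set.Icc x (x + H)) ≤
      ENNReal.ofReal ((1 + 2 * H / g) * (4 * (w j₀)⁻¹ * (1 / 2 : ℝ) ^ κ j₀)) := by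
  have hg0 : 0 < g := hc.trans_le hg
  set R : ℝ := 2 * (w j₀)⁻¹ * (1 / 2 : ℝ) ^ κ j₀ with hR
  have hR0 : 0 ≤ R := by positivity
  -- one short interval
  have hone : ∀ s : ℝ, volume (EE w κ ∩ Set.Icc s (s + g / 2)) ≤ ENNReal.ofReal (2 * R) := by
    intro s
    rcases (EE w κ ∩ Set.Icc s (s + g / 2)).eq_empty_or_nonempty with he | ⟨y₀, hy0, hy1⟩
    · rw [he, measure_empty]
      exact bot_le
    · have hsub : EE w κ ∩ Set.Icc s (s + g / 2) ⊆ Set.Icc (y₀ - R) (y₀ + R) := by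
        rintro t ⟨h1, h2⟩
        have habs : |t - y₀| ≤ g / 2 := by
          rw [abs_le]
          constructor
          · linarith [h2.1, hy1.2]
          · linarith [h2.2, hy1.1]
        have h3 : ∀ j, nd (w j * |t - y₀|) ≤ 2 * (1 / 2 : ℝ) ^ κ j := by
          intro j
          have h4 : nd (w j * |t - y₀|) = nd (w j * t - w j * y₀) := by
            rcases abs_cases (t - y₀) with ⟨h5, _⟩ | ⟨h5, _⟩
            · rw [h5]
              congr 1
              ring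
            · rw [h5, ← nd_neg]
              congr 1
              ring
          rw [h4]
          have h5 := nd_sub_le (w j * t) (w j * y₀)
          have h6 := h1 j
          have h7 := hy0 j
          linarith
        have h4 : |t - y₀| < c := by
          by_contra hcon
          push Not at hcon
          have := hsep _ hcon h3
          linarith
        have h5 : nd (w j₀ * |t - y₀|) = w j₀ * |t - y₀| := by
          apply nd_small (by positivity)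
          exact (mul_le_mul_of_nonneg_left h4.le hw.le).trans hwc
        have h6 := h3 j₀
        rw [h5] at h6
        have h7 : |t - y₀| ≤ R := by
          rw [hR]
          calc |t - y₀| = (w j₀)⁻¹ * (w j₀ * |t - y₀|) := by field_simp
            _ ≤ (w j₀)⁻¹ * (2 * (1 / 2 : ℝ) ^ κ j₀) := by gcongr
            _ = _ := by ring
        have h8 := abs_le.1 h7
        exact ⟨by linarith, by linarith⟩
      refine (measure_mono hsub).trans ?_
      rw [Real.volume_Icc]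
      apply ENNReal.ofReal_le_ofReal
      linarith
  set N : ℕ := ⌊2 * H / g⌋₊ + 1 with hN
  have hNH : H ≤ N * (g / 2) := by
    have h1 : 2 * H / g < ⌊2 * H / g⌋₊ + 1 := Nat.lt_floor_add_one _
    rw [div_lt_iff₀ hg0] at h1
    rw [hN]
    push_cast
    linarith
  have hcov : EE w κ ∩ Set.Icc x (x + H) ⊆ ⋃ i ∈ Finset.range N,
      (EE w κ ∩ Set.Icc (x + i * (g / 2)) (x + i * (g / 2) + g / 2)) := by
    rintro t ⟨h1, h2, h3⟩
    set i : ℕ := ⌊(t - x) / (g / 2)⌋₊ with hi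
    have hx0 : 0 ≤ (t - x) / (g / 2) := div_nonneg (by linarith) (by linarith)
    have hi1 : (i : ℝ) ≤ (t - x) / (g / 2) := Nat.floor_le hx0
    have hi2 : (t - x) / (g / 2) < i + 1 := Nat.lt_floor_add_one _
    rw [le_div_iff₀ (by linarith)] at hi1
    rw [div_lt_iff₀ (by linarith)] at hi2
    by_cases hiN : i < N
    · refine Set.mem_iUnion₂.2 ⟨i, Finset.mem_range.2 hiN, h1, by linarith, by linarith⟩
    · push Not at hiN
      have h4 : (N : ℝ) ≤ i := by exact_mod_cast hiN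
      have h5 : (N : ℝ) * (g / 2) ≤ i * (g / 2) := by gcongr
      have hN1 : 1 ≤ N := by omega
      have h6 : t = x + H := by linarith
      have h7 : H = N * (g / 2) := by linarith
      refine Set.mem_iUnion₂.2 ⟨N - 1, Finset.mem_range.2 (by omega), h1, ?_, ?_⟩
      · have h8 : ((N - 1 : ℕ) : ℝ) = N - 1 := by push_cast [Nat.cast_sub hN1]; ring
        rw [h8, h6, h7]
        nlinarith
      · have h8 : ((N - 1 : ℕ) : ℝ) = N - 1 := by push_cast [Nat.cast_sub hN1]; ring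
        rw [h8, h6, h7]
        apply le_of_eq
        ring
  refine (measure_mono hcov).trans ((measure_biUnion_finset_le _ _).trans ?_)
  calc ∑ i ∈ Finset.range N, volume (EE w κ ∩ Set.Icc (x + i * (g / 2)) (x + i * (g / 2) + g / 2))
      ≤ ∑ _i ∈ Finset.range N, ENNReal.ofReal (2 * R) := Finset.sum_le_sum fun i _ => hone _
    _ = ENNReal.ofReal (N * (2 * R)) := by
        rw [Finset.sum_const, Finset.card_range, nsmul_eq_mul, ← ENNReal.ofReal_natCast,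
          ← ENNReal.ofReal_mul (by positivity)]
    _ ≤ _ := by
        apply ENNReal.ofReal_le_ofReal
        have h1 : (⌊2 * H / g⌋₊ : ℝ) ≤ 2 * H / g := Nat.floor_le (by positivity)
        have h2 : (N : ℝ) ≤ 1 + 2 * H / g := by
          rw [hN]
          push_cast
          linarith
        calc (N : ℝ) * (2 * R) ≤ (1 + 2 * H / g) * (2 * R) := by gcongr
          _ = _ := by rw [hR]; ring

end Pool.Agent.T6.H79.BZ5
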