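import Pool.Agent.T6.H79.BZ4.Win
import Pool.Agent.T6.H79.BZ5.Spacing

set_option autoImplicit false

/-!
# Barnes zeta functions, fourth moment for all weights, part 2: decomposition into level sets
-/

namespace Pool.Agent.T6.H79.BZ5

open Finset Filter Topology MeasureTheory Complex FourierTransform
open Pool.Agent.H131R5.BZ Pool.Agent.Y930.Bz Pool.Agent.Y616.BM Pool.Agent.T6.H60.BC
open Pool.Agent.T6.H60.BD Pool.Agent.T6.H79.BZ4

open Classical in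
/-- the level -/
noncomputable def lev (L : ℕ) (x : ℝ) : ℕ := Nat.findGreatest (fun k => nd x ≤ (1 / 2 : ℝ) ^ k) L

lemma lev_le (L : ℕ) (x : ℝ) : lev L x ≤ L := Nat.findGreatest_le L

lemma lev_spec (L : ℕ) (x : ℝ) : nd x ≤ (1 / 2 : ℝ) ^ lev L x := by
  classical
  unfold lev
  refine Nat.findGreatest_spec (P := fun k => nd x ≤ (1 / 2 : ℝ) ^ k) (m := 0) (Nat.zero_le L) ?_
  have := nd_le_half x
  simp only [pow_zero]
  linarith

lemma lev_inv (L : ℕ) (x : ℝ) : (max ((1 / 2 : ℝ) ^ L) (nd x))⁻¹ ≤ 2 * 2 ^ lev L x := by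
  have h20 : 0 < (1 / 2 : ℝ) ^ L := by positivity
  have h2 : ∀ k : ℕ, ((1 / 2 : ℝ) ^ k)⁻¹ = 2 ^ k := by
    intro k
    rw [← inv_pow]
    norm_num
  rcases (lev_le L x).eq_or_lt with h | h
  · rw [h]
    calc (max ((1 / 2 : ℝ) ^ L) (nd x))⁻¹ ≤ ((1 / 2 : ℝ) ^ L)⁻¹ :=
          inv_anti₀ h20 (le_max_left _ _)
      _ = 2 ^ L := h2 L
      _ ≤ _ := by
          have : (0 : ℝ) < 2 ^ L := by positivity
          linarith
  · have h3 : ¬ nd x ≤ (1 / 2 : ℝ) ^ (lev L x + 1) := by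
      classical
      unfold lev at h ⊢
      exact Nat.findGreatest_is_greatest (P := fun k => nd x ≤ (1 / 2 : ℝ) ^ k)
        (Nat.lt_succ_self _) h
    push Not at h3
    calc (max ((1 / 2 : ℝ) ^ L) (nd x))⁻¹ ≤ ((1 / 2 : ℝ) ^ (lev L x + 1))⁻¹ :=
          inv_anti₀ (by positivity) (h3.le.trans (le_max_right _ _))
      _ = 2 ^ (lev L x + 1) := h2 _
      _ = _ := by rw [pow_succ]; ring

lemma lev_meas (L : ℕ) : Measurable (lev L) := by
  classical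
  unfold lev
  refine measurable_findGreatest fun k _ => ?_
  exact measurableSet_le nd_meas measurable_const

/-- the set of parameters of given levels -/
def LS {r : ℕ} (w : Fin r → ℝ) (η : ℝ) (L : ℕ) (κ : Fin r → ℕ) : Set ℝ :=
  {u : ℝ | ∀ j, lev L (w j * hf η u) = κ j}

lemma LS_meas {r : ℕ} (w : Fin r → ℝ) (η : ℝ) (L : ℕ) (κ : Fin r → ℕ) :
    MeasurableSet (LS w η L κ) := by
  have : LS w η L κ = ⋂ j, {u : ℝ | lev L (w j * hf η u) = κ j} := by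
    ext u; simp [LS]
  rw [this]
  refine MeasurableSet.iInter fun j => ?_
  have h1 : Measurable fun u : ℝ => lev L (w j * hf η u) := by
    refine (lev_meas L).comp ?_
    unfold hf
    fun_prop
  exact h1 (measurableSet_singleton _)

/-- the kernel on a block and a level set -/
noncomputable def kl {r : ℕ} (a : ℝ) (w : Fin r → ℝ) (σ η M : ℝ) (L : ℕ) (κ : Fin r → ℕ) : ℝ → ℂ :=
  (LS w η L κ).indicator (kb a w σ η M)

/-- the set of levels -/
def KL (r L : ℕ) : Finset (Fin r → ℕ) := Fintype.piFinset fun _ : Fin r => Finset.range (L + 1)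

lemma KL_card (r L : ℕ) : (KL r L).card = (L + 1) ^ r := by
  unfold KL
  rw [Fintype.card_piFinset]
  simp

lemma kl_sum {r : ℕ} (a : ℝ) (w : Fin r → ℝ) (σ η M : ℝ) (L : ℕ) (u : ℝ) :
    kb a w σ η M u = ∑ κ ∈ KL r L, kl a w σ η M L κ u := by
  classical
  rw [Finset.sum_eq_single (fun j => lev L (w j * hf η u))]
  · unfold kl
    rw [Set.indicator_of_mem]
    intro j
    rfl
  · intro κ _ hκ
    unfold kl
    rw [Set.indicator_of_notMem]
    intro h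
    exact hκ (funext fun j => (h j).symm)
  · intro h
    exfalso
    apply h
    unfold KL
    rw [Fintype.mem_piFinset]
    intro j
    exact Finset.mem_range.2 (Nat.lt_succ_of_le (lev_le _ _))

lemma kl_meas {r : ℕ} (a : ℝ) (w : Fin r → ℝ) (σ η M : ℝ) (L : ℕ) (κ : Fin r → ℕ) :
    Measurable (kl a w σ η M L κ) := (kb_meas a w σ η M).indicator (LS_meas w η L κ)

lemma kl_norm {r : ℕ} (a : ℝ) (w : Fin r → ℝ) (σ η M : ℝ) (L : ℕ) (κ : Fin r → ℕ) (u : ℝ) :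
    ‖kl a w σ η M L κ u‖ ≤ ‖kb a w σ η M u‖ := by
  unfold kl
  exact norm_indicator_le_norm_self _ _

/-- the majorant of the kernel on a level set -/
noncomputable def ql {r : ℕ} (w : Fin r → ℝ) (κ : Fin r → ℕ) : ℝ → ℝ :=
  (EE w κ).indicator fun _ => 2 ^ r * ∏ j, (2 : ℝ) ^ κ j

lemma ql_nonneg {r : ℕ} (w : Fin r → ℝ) (κ : Fin r → ℕ) (y : ℝ) : 0 ≤ ql w κ y :=
  Set.indicator_nonneg (fun _ _ => mul_nonneg (by positivity)
    (Finset.prod_nonneg fun j _ => by positivity)) _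

lemma QQ_ql {r : ℕ} {w : Fin r → ℝ} {L : ℕ} {κ : Fin r → ℕ} {y : ℝ}
    (h : ∀ j, lev L (w j * y) = κ j) : QQ w L y ≤ ql w κ y := by
  have hmem : y ∈ EE w κ := by
    intro j
    rw [← h j]
    exact lev_spec L _
  unfold ql
  rw [Set.indicator_of_mem hmem]
  unfold QQ
  calc ∏ j, (max ((1 / 2 : ℝ) ^ L) (nd (w j * y)))⁻¹ ≤ ∏ j, (2 * (2 : ℝ) ^ κ j) := by
        refine Finset.prod_le_prod (fun j _ => by positivity) fun j _ => ?_
        rw [← h j]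
        exact lev_inv L _
    _ = _ := by rw [Finset.prod_mul_distrib]; simp

lemma kl_le {r : ℕ} {a : ℝ} (ha : 0 < a) {w : Fin r → ℝ} (hw : ∀ j, 0 < w j) {σ η M δ : ℝ}
    (hσ : 0 < σ) (hη : 0 < η) (hη1 : η ≤ 1) (hM : 0 < M) {L : ℕ} (hδ : 0 < δ) (hδ1 : δ ≤ 1)
    (hδx : ∀ j, δ * (1 / 2 : ℝ) ^ L ≤ w j * (3 * M * η)) (κ : Fin r → ℕ) (u : ℝ) :
    ‖kl a w σ η M L κ u‖ₑ ≤ {u : ℝ | M ≤ hf η u ∧ hf η u ≤ 2 * M}.indicator
      (fun u => ENNReal.ofReal (Hc r a σ δ η M * ql w κ (hf η u))) u := by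
  have hH := Hc_nonneg (r := r) (a := a) (σ := σ) (η := η) hδ hM
  unfold kl
  by_cases h : u ∈ LS w η L κ
  · rw [Set.indicator_of_mem h]
    refine (kb_le ha hw hσ hη hη1 hM hδ hδ1 hδx u).trans ?_
    by_cases hu : u ∈ {u : ℝ | M ≤ hf η u ∧ hf η u ≤ 2 * M}
    · rw [Set.indicator_of_mem hu, Set.indicator_of_mem hu]
      apply ENNReal.ofReal_le_ofReal
      exact mul_le_mul_of_nonneg_left (QQ_ql h) hH
    · rw [Set.indicator_of_notMem hu, Set.indicator_of_notMem hu]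
  · rw [Set.indicator_of_notMem h, enorm_zero]
    exact bot_le

/-- decomposition of the fourth moment -/
theorem F4_dec {ι : Type*} (s : Finset ι) {k : ℝ → ℂ} {kk : ι → ℝ → ℂ}
    (hsum : ∀ u, k u = ∑ i ∈ s, kk i u) (hki : ∀ i ∈ s, Integrable (kk i))
    (hkm : ∀ i ∈ s, Measurable (kk i)) {z : ℝ → ℂ} (hz : Measurable z)
    (hre : ∀ u, 0 ≤ (z u).re) {α : ℝ} (hα : 0 ≤ α) :
    F4 k z α ≤ (s.card : ENNReal) ^ 4 * ∑ i ∈ s, F4 (kk i) z α := by
  unfold F4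
  have hi : ∀ i ∈ s, Integrable fun u : ℝ => kk i u * cexp (-(α : ℂ) * z u) := by
    intro i his
    have hm : Measurable fun u : ℝ => kk i u * cexp (-(α : ℂ) * z u) :=
      (hkm i his).mul ((measurable_const.mul hz).cexp)
    refine (hki i his).mono hm.aestronglyMeasurable (Eventually.of_forall fun u => ?_)
    rw [norm_mul]
    exact mul_le_of_le_one_right (norm_nonneg _) (exp_le_one' hα (hre u))
  have hdec : ∀ u, k u * cexp (-(α : ℂ) * z u) =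
      ∑ i ∈ s, kk i u * cexp (-(α : ℂ) * z u) + (fun _ : ℝ => (0 : ℂ)) u := by
    intro u
    rw [hsum u, Finset.sum_mul, add_zero]
  have h0 : Integrable fun _ : ℝ => (0 : ℂ) := integrable_zero _ _ _
  calc ∫⁻ ξ : ℝ, ‖𝓕 (fun u : ℝ => k u * cexp (-(α : ℂ) * z u)) ξ‖ₑ ^ 4
      ≤ ∫⁻ ξ : ℝ, (s.card : ENNReal) ^ 4 *
        ∑ i ∈ s, ‖𝓕 (fun u : ℝ => kk i u * cexp (-(α : ℂ) * z u)) ξ‖ₑ ^ 4 := by
        refine lintegral_mono fun ξ => ?_
        have h1 := four_dec s hi h0 hdec ξ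
        simp only [enorm_zero, lintegral_zero, add_zero] at h1
        calc _ ≤ (∑ i ∈ s, ‖𝓕 (fun u : ℝ => kk i u * cexp (-(α : ℂ) * z u)) ξ‖ₑ) ^ 4 := by
              gcongr
          _ ≤ _ := sum_pow_le s _ (by norm_num)
    _ = _ := by
        rw [lintegral_const_mul' _ _ (by simp), lintegral_finsetSum' _ fun i hi' => ?_]
        exact ((four_meas (hi i hi')).pow_const 4).aemeasurable

section
variable {r : ℕ} {a : ℝ} {w : Fin r → ℝ} {σ η M δ : ℝ} {L : ℕ}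

/-- the average over the shift for a kernel with a given majorant -/
theorem regQ {k : ℝ → ℂ} (hkm : Measurable k) (hki : Integrable k) {B : ℝ} (hkB : ∀ u, ‖k u‖ ≤ B)
    (hη : 0 < η) (hη1 : η ≤ 1) (hM : 0 < M) {H : ℝ} (hH : 0 ≤ H) {q : ℝ → ℝ} (hqm : Measurable q)
    (hq : ∀ y, 0 ≤ q y) (hk : ∀ u, ‖k u‖ₑ ≤ {u : ℝ | M ≤ hf η u ∧ hf η u ≤ 2 * M}.indicator
      (fun u => ENNReal.ofReal (H * q (hf η u))) u) {m : ℕ} (hMm : M ≤ 2 ^ m)
    {A₁ B₁ A₂ B₂ : ℝ} (hA₁ : 0 ≤ A₁) (hB₁ : 0 ≤ B₁) (hA₂ : 0 ≤ A₂) (hB₂ : 0 ≤ B₂)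
    (H₁ : ∀ x y : ℝ, 0 ≤ y → y ≤ M → ∫⁻ t in Set.Icc (x - y) (x + y),
      ENNReal.ofReal (q t ^ 1) ≤ ENNReal.ofReal (A₁ + B₁ * y))
    (H₂ : ∀ x y : ℝ, 0 ≤ y → y ≤ M → ∫⁻ t in Set.Icc (x - y) (x + y),
      ENNReal.ofReal (q t ^ 2) ≤ ENNReal.ofReal (A₂ + B₂ * y)) :
    ∫⁻ α in Set.Ioi (0 : ℝ), ENNReal.ofReal (α * Real.exp (-α)) *
      F4 k (fun u => zr u η) α ≤
      ENNReal.ofReal (2 * (H ^ 4 * (M⁻¹) ^ 3 * (64 * ((m : ℝ) + 1) *
        ((A₁ + B₁ * M) * (A₂ * (A₁ + B₁ * M) + B₂ * M * (A₁ + B₁)))))) := by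
  have hcos := (cos_pos_of hη.le hη1).1
  have hpi := Real.pi_pos
  have hc : 0 < Real.cos η / (2 * Real.pi) := by positivity
  have hsin : 0 ≤ Real.sin η := le_trans (by positivity) (sin_ge hη.le hη1)
  have h1 := four_avg hkm hki hkB (Pool.Agent.T6.H79.BZ4.zr_meas η) (fun u => by
      rw [zr_re]
      have := Real.exp_pos (-u)
      positivity)
  refine h1.trans ?_
  simp only [zr_im]
  have h2 := four_cv (h := fun u => ‖k u‖ₑ) hkm.enorm (Real.cos η) hcos.ne'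
  refine h2.trans ?_
  have e1 : Real.cos η = 2 * Real.pi * (Real.cos η / (2 * Real.pi)) := by field_simp
  have h3 := tri_cv (h := fun u => ‖k u‖ₑ) hc hM hH (q := q) hq (fun u => hk u)
  rw [← e1] at h3
  have h4 := trip (F₁ := fun t => ENNReal.ofReal (q t ^ 1))
    (F₂ := fun t => ENNReal.ofReal (q t ^ 2)) ((hqm.pow_const 1).ennreal_ofReal)
    ((hqm.pow_const 2).ennreal_ofReal) hM hMm hA₁ hB₁ hA₂ hB₂ H₁ H₂
  calc _ ≤ 2 * (ENNReal.ofReal (H ^ 4 * (M⁻¹) ^ 3) *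
        ENNReal.ofReal (64 * ((m : ℝ) + 1) * ((A₁ + B₁ * M) *
        (A₂ * (A₁ + B₁ * M) + B₂ * M * (A₁ + B₁))))) := by
        gcongr
        refine h3.trans ?_
        gcongr
    _ = _ := by
        rw [← ENNReal.ofReal_mul (by positivity), ENNReal.ofReal_mul (p := 2) (by norm_num)]
        simp

end

end Pool.Agent.T6.H79.BZ5
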