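import Pool.Agent.T6.H79.BZ4.Block2
import Pool.Agent.T6.H79.BZ5.Lev

set_option autoImplicit false

/-!
# Barnes zeta functions, fourth moment for all weights, part 3: the bound for one level set
-/

namespace Pool.Agent.T6.H79.BZ5

open Finset Filter Topology MeasureTheory Complex FourierTransform
open Pool.Agent.H131R5.BZ Pool.Agent.Y930.Bz Pool.Agent.Y616.BM Pool.Agent.T6.H60.BC
open Pool.Agent.T6.H60.BD Pool.Agent.T6.H79.BZ4

/-- the scale bound -/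
lemma scale_real {a y₀ : ℝ} (ha : 0 < a) (hy : 0 < y₀) (hy1 : y₀ ≤ 1) {p : ℝ} (hp : 0 ≤ p) :
    ∃ C : ℝ, 0 ≤ C ∧ ∀ n j : ℕ, (y₀ * 2 ^ j) ^ p * ((2 : ℝ) ^ (n - j)) ^ p *
      Real.exp (-(3 * a * (y₀ * 2 ^ j) * (1 / 2) ^ n)) ^ 4 ≤ C * ((2 : ℝ) ^ n) ^ p := by
  obtain ⟨N, hN⟩ := exists_nat_ge p
  refine ⟨1 + (N.factorial : ℝ) / (12 * a) ^ N, by positivity, fun n j => ?_⟩
  have hexp : Real.exp (-(3 * a * (y₀ * 2 ^ j) * (1 / 2) ^ n)) ^ 4 =
      Real.exp (-(12 * a * (y₀ * 2 ^ j * (1 / 2) ^ n))) := by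
    rw [← Real.exp_nat_mul]
    congr 1
    push_cast
    ring
  rw [hexp]
  have h3 : 0 ≤ (N.factorial : ℝ) / (12 * a) ^ N := by positivity
  have h4 : 0 ≤ ((2 : ℝ) ^ n) ^ p := by positivity
  rcases le_total j n with h | h
  · have e1 : (y₀ * 2 ^ j) * (2 : ℝ) ^ (n - j) = y₀ * 2 ^ n := by
      rw [mul_assoc, ← pow_add]
      congr 2
      omega
    rw [← Real.mul_rpow (by positivity) (by positivity), e1]
    have h1 : Real.exp (-(12 * a * (y₀ * 2 ^ j * (1 / 2) ^ n))) ≤ 1 := by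
      rw [Real.exp_le_one_iff]
      have : 0 ≤ 12 * a * (y₀ * 2 ^ j * (1 / 2) ^ n) := by positivity
      linarith
    have h2 : (y₀ * 2 ^ n) ^ p ≤ ((2 : ℝ) ^ n) ^ p := by
      apply Real.rpow_le_rpow (by positivity) _ hp
      have : (0 : ℝ) < 2 ^ n := by positivity
      nlinarith
    calc (y₀ * 2 ^ n) ^ p * Real.exp (-(12 * a * (y₀ * 2 ^ j * (1 / 2) ^ n))) ≤
        ((2 : ℝ) ^ n) ^ p * 1 := by gcongr
      _ ≤ _ := by nlinarith
  · have e0 : n - j = 0 := by omega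
    rw [e0, pow_zero, Real.one_rpow, mul_one]
    set x : ℝ := y₀ * 2 ^ j * (1 / 2) ^ n with hx
    have hx0 : 0 < x := by positivity
    have e1 : (y₀ * 2 ^ j) = x * 2 ^ n := by
      rw [hx, mul_assoc, ← mul_pow]
      norm_num
    rw [e1, Real.mul_rpow hx0.le (by positivity)]
    have h1 := pow_mul_exp_le hx0.le (b := 12 * a) (by positivity) N
    have hE : Real.exp (-(12 * a * x)) ≤ 1 := by
      rw [Real.exp_le_one_iff]
      have : 0 ≤ 12 * a * x := by positivity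
      linarith
    have hE0 := Real.exp_pos (-(12 * a * x))
    have h5 : x ^ p * Real.exp (-(12 * a * x)) ≤ 1 + (N.factorial : ℝ) / (12 * a) ^ N := by
      rcases le_total x 1 with hx1 | hx1
      · have h6 : x ^ p ≤ 1 := Real.rpow_le_one hx0.le hx1 hp
        calc x ^ p * Real.exp (-(12 * a * x)) ≤ 1 * 1 := by gcongr
          _ ≤ _ := by linarith
      · have h6 : x ^ p ≤ x ^ N := by
          rw [← Real.rpow_natCast x N]
          exact Real.rpow_le_rpow_of_exponent_le hx1 hN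
        calc x ^ p * Real.exp (-(12 * a * x)) ≤ x ^ N * Real.exp (-(12 * a * x)) := by gcongr
          _ ≤ _ := by linarith
    calc x ^ p * ((2 : ℝ) ^ n) ^ p * Real.exp (-(12 * a * x)) =
        (x ^ p * Real.exp (-(12 * a * x))) * ((2 : ℝ) ^ n) ^ p := by ring
      _ ≤ _ := by gcongr

/-- algebra of the triple integral -/
lemma alg_trip {c R G K₁ A₁M A₁B₁ A₂ B₂M : ℝ} (hc : 0 ≤ c) (hR : 0 ≤ R) (hG : 1 ≤ 2 * G)
    (hK : 0 ≤ K₁) (h1 : A₁M = c * R * (1 + 4 * G)) (h2 : A₁B₁ ≤ c * R * K₁)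
    (h3 : A₂ = c ^ 2 * R) (h4 : B₂M = c ^ 2 * R * (4 * G)) :
    A₁M * (A₂ * A₁M + B₂M * A₁B₁) ≤ (6 * (6 + 4 * K₁)) * (c ^ 4 * R ^ 3 * G ^ 2) := by
  have hG0 : 0 ≤ G := by linarith
  have h5 : A₁M ≤ c * R * (6 * G) := by
    rw [h1]
    apply mul_le_mul_of_nonneg_left _ (by positivity)
    linarith
  have h50 : 0 ≤ A₁M := by rw [h1]; positivity
  have h6 : A₂ * A₁M ≤ c ^ 2 * R * (c * R * (6 * G)) := by
    rw [h3]
    exact mul_le_mul_of_nonneg_left h5 (by positivity)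
  have h7 : B₂M * A₁B₁ ≤ c ^ 2 * R * (4 * G) * (c * R * K₁) := by
    rw [h4]
    exact mul_le_mul_of_nonneg_left h2 (by positivity)
  calc A₁M * (A₂ * A₁M + B₂M * A₁B₁) ≤ A₁M * (c ^ 2 * R * (c * R * (6 * G)) +
        c ^ 2 * R * (4 * G) * (c * R * K₁)) := mul_le_mul_of_nonneg_left (add_le_add h6 h7) h50
    _ ≤ (c * R * (6 * G)) * (c ^ 2 * R * (c * R * (6 * G)) +
        c ^ 2 * R * (4 * G) * (c * R * K₁)) := mul_le_mul_of_nonneg_right h5 (by positivity)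
    _ = _ := by ring

/-- the size of the resonances -/
lemma alg_size {P Λ ρ M X C₁ σ β : ℝ} {r : ℕ} (hP : P ^ 2 = C₁ * (4 : ℝ) ^ r * Λ ^ β *
    ρ ^ (-(β + 2 * σ))) (hΛ : 0 < Λ) (hρ : 0 < ρ) (hM : 0 < M) (hΛM : Λ ≤ 2 * M) (hβ : 1 ≤ β)
    (hσ : 1 / 2 ≤ σ) (hX : ρ⁻¹ ≤ X) :
    P ^ 4 * ρ ^ 3 * (M / Λ) ^ 2 ≤ (C₁ ^ 2 * (16 : ℝ) ^ r * 2 ^ (2 * β - 2)) *
      (M ^ (2 * β) * X ^ (4 * σ + 2 * β - 3)) := by
  have hX0 : 0 < X := lt_of_lt_of_le (by positivity) hX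
  have e1 : P ^ 4 * ρ ^ 3 * (M / Λ) ^ 2 = C₁ ^ 2 * (16 : ℝ) ^ r * (M ^ 2 * (Λ ^ β) ^ 2 / Λ ^ 2) *
      ((ρ ^ (-(β + 2 * σ))) ^ 2 * ρ ^ 3) := by
    have e2 : P ^ 4 = (P ^ 2) ^ 2 := by ring
    have e3 : (16 : ℝ) ^ r = ((4 : ℝ) ^ r) ^ 2 := by
      rw [← pow_mul, mul_comm, pow_mul]
      norm_num
    rw [e2, hP, e3]
    field_simp
  have e4 : (Λ ^ β) ^ 2 / Λ ^ 2 = Λ ^ (2 * β - 2) := by
    rw [← Real.rpow_natCast (Λ ^ β), ← Real.rpow_mul hΛ.le, ← Real.rpow_natCast Λ,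
      ← Real.rpow_sub hΛ]
    congr 1
    push_cast
    ring
  have e5 : (ρ ^ (-(β + 2 * σ))) ^ 2 * ρ ^ 3 = (ρ⁻¹) ^ (4 * σ + 2 * β - 3) := by
    rw [Real.inv_rpow hρ.le, ← Real.rpow_neg hρ.le, ← Real.rpow_natCast (ρ ^ _),
      ← Real.rpow_mul hρ.le, ← Real.rpow_natCast ρ, ← Real.rpow_add hρ]
    congr 1
    push_cast
    ring
  have h1 : Λ ^ (2 * β - 2) ≤ 2 ^ (2 * β - 2) * M ^ (2 * β - 2) := by
    rw [← Real.mul_rpow (by norm_num) hM.le]
    exact Real.rpow_le_rpow hΛ.le hΛM (by linarith)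
  have h2 : (ρ⁻¹) ^ (4 * σ + 2 * β - 3) ≤ X ^ (4 * σ + 2 * β - 3) :=
    Real.rpow_le_rpow (by positivity) hX (by linarith)
  have e6 : M ^ 2 * M ^ (2 * β - 2) = M ^ (2 * β) := by
    rw [← Real.rpow_natCast M, ← Real.rpow_add hM]
    congr 1
    push_cast
    ring
  rw [e1, mul_div_assoc, e4, e5]
  calc C₁ ^ 2 * (16 : ℝ) ^ r * (M ^ 2 * Λ ^ (2 * β - 2)) * (ρ⁻¹) ^ (4 * σ + 2 * β - 3) ≤
      C₁ ^ 2 * (16 : ℝ) ^ r * (M ^ 2 * (2 ^ (2 * β - 2) * M ^ (2 * β - 2))) *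
        X ^ (4 * σ + 2 * β - 3) := by gcongr
    _ = C₁ ^ 2 * (16 : ℝ) ^ r * 2 ^ (2 * β - 2) * ((M ^ 2 * M ^ (2 * β - 2)) *
        X ^ (4 * σ + 2 * β - 3)) := by ring
    _ = _ := by rw [e6]

/-- the bound for one level set in a block -/
theorem blk_one {r : ℕ} (hr : 0 < r) {w : Fin r → ℝ} (hw : ∀ j, 0 < w j) {σ β : ℝ}
    (hσ : 1 / 2 ≤ σ) (hβ : 1 ≤ β) (h : PtB w σ β) {ε : ℝ} (hε : 0 < ε) {a : ℝ} (ha : 0 < a)
    {y₀ : ℝ} (hy : 0 < y₀) (hy1 : y₀ ≤ 1) : ∃ C : ℝ, 0 ≤ C ∧ ∀ n j : ℕ, j ≤ 2 * n →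
      ∀ κ ∈ KL r (n - j), ∫⁻ α in Set.Ioi (0 : ℝ), ENNReal.ofReal (α * Real.exp (-α)) *
        F4 (kl a w σ ((1 / 2 : ℝ) ^ n) (y₀ * 2 ^ j) (n - j) κ)
          (fun u => zr u ((1 / 2 : ℝ) ^ n)) α ≤
      ENNReal.ofReal (C * ((n : ℝ) + 1) * ((2 : ℝ) ^ n) ^ (4 * σ + 2 * (β + ε) - 3)) := by
  obtain ⟨β', hβ'⟩ : ∃ β', β' = β + ε := ⟨_, rfl⟩
  rw [← hβ']
  have hβ1 : 1 ≤ β' := by linarith
  have hβ0 : 0 < β' := by linarith
  have hσ0 : 0 < σ := by linarith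
  set p : ℝ := 4 * σ + 2 * β' - 3 with hp
  have hp0 : 0 ≤ p := by linarith
  obtain ⟨m₀, hm0, hm1, hm⟩ := exists_low hw
  obtain ⟨W, hW1, hW⟩ := exists_up (w := w)
  set c : ℝ := min y₀ (1 / (4 * W)) with hc
  have hc0 : 0 < c := lt_min hy (by positivity)
  have hcy : c ≤ y₀ := min_le_left _ _
  have hcW : ∀ j, w j * c ≤ 1 / 4 := by
    intro j
    have h1 : c ≤ 1 / (4 * W) := min_le_right _ _
    calc w j * c ≤ W * (1 / (4 * W)) := by
          gcongr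
          exact hW j
      _ = 1 / 4 := by field_simp
  obtain ⟨C₁, hC₁, hpt⟩ := pt_ge h hε hc0
  rw [← hβ'] at hpt
  set δ : ℝ := min 1 (3 * m₀ * y₀) with hδd
  have hδ : 0 < δ := lt_min one_pos (by positivity)
  have hδ1 : δ ≤ 1 := min_le_left _ _
  have hδ2 : δ ≤ 3 * m₀ * y₀ := min_le_right _ _
  obtain ⟨Cs, hCs, hs⟩ := scale_real ha hy hy1 hp0
  have hcos1 := Real.cos_one_pos
  have hpi := Real.pi_pos
  set K : ℝ := (4 * Real.pi / Real.cos 1) ^ σ * (4 / δ) ^ r with hK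
  have hK0 : 0 ≤ K := by positivity
  set K₁ : ℝ := 1 + 4 / c with hK₁
  have hK₁0 : 0 ≤ K₁ := by positivity
  set D₁ : ℝ := (2 ^ r) ^ 4 * (4 * m₀⁻¹) ^ 3 * (C₁ ^ 2 * (16 : ℝ) ^ r * 2 ^ (2 * β' - 2)) with hD₁
  have hD₁0 : 0 ≤ D₁ := by positivity
  refine ⟨256 * (6 * (6 + 4 * K₁)) * D₁ * K ^ 4 * Cs, by positivity, fun n j hj κ hκ => ?_⟩
  set η : ℝ := (1 / 2 : ℝ) ^ n with hηd
  have hη : 0 < η := by positivity
  have hη1 : η ≤ 1 := pow_le_one₀ (by norm_num) (by norm_num)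
  set M : ℝ := y₀ * 2 ^ j with hMd
  have hM : 0 < M := by positivity
  have hMy : y₀ ≤ M := by
    rw [hMd]
    have : (1 : ℝ) ≤ 2 ^ j := one_le_pow₀ (by norm_num)
    nlinarith
  have hMj : M ≤ 2 ^ j := by
    rw [hMd]
    have : (0 : ℝ) < 2 ^ j := by positivity
    nlinarith
  set L : ℕ := n - j with hL
  set X : ℝ := (2 : ℝ) ^ L with hX
  have hX0 : 0 < X := by positivity
  have hκL : ∀ i, κ i ≤ L := fun i => by
    have := Fintype.mem_piFinset.1 hκ i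
    exact Nat.lt_succ_iff.1 (Finset.mem_range.1 this)
  have hδx : ∀ i, δ * (1 / 2 : ℝ) ^ L ≤ w i * (3 * M * η) := by
    intro i
    have h1 : (1 / 2 : ℝ) ^ L ≤ 2 ^ j * (1 / 2 : ℝ) ^ n := by
      rcases le_total j n with h | h
      · have h2 : (1 / 2 : ℝ) ^ n = (1 / 2 : ℝ) ^ j * (1 / 2 : ℝ) ^ L := by
          rw [← pow_add]
          congr 1
          omega
        rw [h2, ← mul_assoc, ← mul_pow]
        norm_num
      · have h2 : L = 0 := by omega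
        have h3 : (2 : ℝ) ^ j = 2 ^ (j - n) * 2 ^ n := by
          rw [← pow_add]
          congr 1
          omega
        rw [h2, pow_zero, h3, mul_assoc, ← mul_pow]
        norm_num
        exact one_le_pow₀ (by norm_num)
    have hwi := hm i
    calc δ * (1 / 2 : ℝ) ^ L ≤ (3 * m₀ * y₀) * (2 ^ j * (1 / 2 : ℝ) ^ n) := by gcongr
      _ = m₀ * (3 * M * η) := by rw [hMd, hηd]; ring
      _ ≤ _ := by gcongr
  set H : ℝ := Hc r a σ δ η M with hH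
  have hH0 : 0 ≤ H := Hc_nonneg hδ hM
  set E : ℝ := Real.exp (-(3 * a * M * η)) with hE
  have hE0 : 0 < E := Real.exp_pos _
  have hkb_int := kb_int ha hw hσ0 hη hη1 hM hδ hδ1 hδx
  have hki : Integrable (kl a w σ η M L κ) := by
    unfold kl
    exact hkb_int.indicator (LS_meas w η L κ)
  have hkB : ∀ u, ‖kl a w σ η M L κ u‖ ≤ H * ((2 : ℝ) ^ L) ^ r := fun u =>
    (kl_norm a w σ η M L κ u).trans (kb_bdd ha hw hσ0 hη hη1 hM hδ hδ1 hδx u)
  set q : ℝ → ℝ := (Set.Icc M (2 * M)).indicator (ql w κ) with hq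
  have hqlm : Measurable (ql w κ) := measurable_const.indicator (EE_meas w κ)
  have hqm : Measurable q := hqlm.indicator measurableSet_Icc
  have hq0 : ∀ y, 0 ≤ q y := fun y => Set.indicator_nonneg (fun _ _ => ql_nonneg w κ _) _
  have hkq : ∀ u, ‖kl a w σ η M L κ u‖ₑ ≤ {u : ℝ | M ≤ hf η u ∧ hf η u ≤ 2 * M}.indicator
      (fun u => ENNReal.ofReal (H * q (hf η u))) u := by
    intro u
    refine (kl_le ha hw hσ0 hη hη1 hM hδ hδ1 hδx κ u).trans ?_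
    by_cases hu : u ∈ {u : ℝ | M ≤ hf η u ∧ hf η u ≤ 2 * M}
    · rw [Set.indicator_of_mem hu, Set.indicator_of_mem hu, hq,
        Set.indicator_of_mem (show hf η u ∈ Set.Icc M (2 * M) from ⟨hu.1, hu.2⟩)]
    · rw [Set.indicator_of_notMem hu, Set.indicator_of_notMem hu]
  rcases (EE w κ ∩ Set.Icc M (2 * M)).eq_empty_or_nonempty with hemp | ⟨Y₁, hY₁E, hY₁M, hY₁2⟩
  · -- no resonances
    have hqz : ∀ y, q y = 0 := by
      intro y
      rw [hq]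
      by_cases hyM : y ∈ Set.Icc M (2 * M)
      · rw [Set.indicator_of_mem hyM]
        unfold ql
        rw [Set.indicator_of_notMem]
        intro hyE
        have : y ∈ EE w κ ∩ Set.Icc M (2 * M) := ⟨hyE, hyM⟩
        rw [hemp] at this
        exact this
      · rw [Set.indicator_of_notMem hyM]
    have h1 := regQ (kl_meas a w σ η M L κ) hki hkB hη hη1 hM hH0 hqm hq0 hkq hMj
      (A₁ := 0) (B₁ := 0) (A₂ := 0) (B₂ := 0) le_rfl le_rfl le_rfl le_rfl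
      (fun x y _ _ => by simp [hqz]) (fun x y _ _ => by simp [hqz])
    refine h1.trans (ENNReal.ofReal_le_ofReal ?_)
    have h2 : 2 * (H ^ 4 * M⁻¹ ^ 3 * (64 * ((j : ℝ) + 1) * ((0 + 0 * M) * (0 * (0 + 0 * M) +
        0 * M * (0 + 0))))) = 0 := by ring
    rw [h2]
    positivity
  · -- resonances
    haveI : Nonempty (Fin r) := ⟨⟨0, hr⟩⟩
    obtain ⟨j₀, -, hj₀⟩ := Finset.exists_max_image (Finset.univ : Finset (Fin r)) κ
      Finset.univ_nonempty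
    have hj₀' : ∀ i, κ i ≤ κ j₀ := fun i => hj₀ i (Finset.mem_univ i)
    set ρ : ℝ := (1 / 2 : ℝ) ^ κ j₀ with hρ
    have hρ0 : 0 < ρ := by positivity
    set Λ : ℝ := Lam C₁ σ β' κ (κ j₀) with hΛ
    have hΛ0 : 0 < Λ := Lam_pos hC₁ κ _
    set g : ℝ := max c Λ with hg
    have hg0 : 0 < g := lt_max_of_lt_left hc0
    have hsep : ∀ h : ℝ, c ≤ h → (∀ i, nd (w i * h) ≤ 2 * (1 / 2 : ℝ) ^ κ i) → g ≤ h :=
      fun h hch hh => max_le hch (spaced hβ0 hC₁ hc0 hpt hj₀' hch hh)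
    have hgY : g ≤ Y₁ := by
      apply hsep _ ((hcy.trans hMy).trans hY₁M)
      intro i
      have h1 := hY₁E i
      have h2 : (0 : ℝ) < (1 / 2 : ℝ) ^ κ i := by positivity
      linarith
    have hg2 : g ≤ 2 * M := hgY.trans hY₁2
    have hΛ2 : Λ ≤ 2 * M := (le_max_right _ _).trans hg2
    set P : ℝ := ∏ i, (2 : ℝ) ^ κ i with hP
    have hP0 : 0 < P := Finset.prod_pos fun i _ => by positivity
    set R : ℝ := 4 * m₀⁻¹ * ρ with hR
    have hR0 : 0 ≤ R := by positivity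
    have hwin : ∀ i : ℕ, i ≠ 0 → ∀ x y : ℝ, 0 ≤ y → y ≤ M → ∫⁻ t in Set.Icc (x - y) (x + y),
        ENNReal.ofReal (q t ^ i) ≤ ENNReal.ofReal ((2 ^ r * P) ^ i * R +
          ((2 ^ r * P) ^ i * R * (4 / g)) * y) := by
      intro i hi x y hy0 _
      have h1 : ∀ t, ENNReal.ofReal (q t ^ i) ≤
          ENNReal.ofReal ((2 ^ r * P) ^ i) * (EE w κ).indicator 1 t := by
        intro t
        by_cases ht : t ∈ EE w κ
        · rw [Set.indicator_of_mem ht, Pi.one_apply, mul_one]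
          apply ENNReal.ofReal_le_ofReal
          apply pow_le_pow_left₀ (hq0 t)
          rw [hq]
          refine (Set.indicator_le_self' (fun _ _ => ql_nonneg w κ _) t).trans ?_
          unfold ql
          rw [Set.indicator_of_mem ht]
        · have h2 : q t = 0 := by
            rw [hq]
            by_cases htM : t ∈ Set.Icc M (2 * M)
            · rw [Set.indicator_of_mem htM]
              unfold ql
              rw [Set.indicator_of_notMem ht]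
            · rw [Set.indicator_of_notMem htM]
          rw [h2, zero_pow hi, ENNReal.ofReal_zero]
          exact bot_le
      calc ∫⁻ t in Set.Icc (x - y) (x + y), ENNReal.ofReal (q t ^ i)
          ≤ ∫⁻ t in Set.Icc (x - y) (x + y),
            ENNReal.ofReal ((2 ^ r * P) ^ i) * (EE w κ).indicator 1 t := lintegral_mono h1
        _ = ENNReal.ofReal ((2 ^ r * P) ^ i) * volume (EE w κ ∩ Set.Icc (x - y) (x + y)) := by
            rw [lintegral_const_mul _ (measurable_one.indicator (EE_meas w κ)),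
              lintegral_indicator_one (EE_meas w κ), Measure.restrict_apply (EE_meas w κ)]
        _ ≤ ENNReal.ofReal ((2 ^ r * P) ^ i) * ENNReal.ofReal ((1 + 2 * (2 * y) / g) * R) := by
            gcongr
            have h3 := EE_win (hw j₀) hc0 (hcW j₀) (le_max_left c Λ) hsep (x - y)
              (H := 2 * y) (by linarith)
            have e1 : x - y + 2 * y = x + y := by ring
            rw [e1] at h3
            refine h3.trans (ENNReal.ofReal_le_ofReal ?_)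
            have h4 : (w j₀)⁻¹ ≤ m₀⁻¹ := inv_anti₀ hm0 (hm j₀)
            rw [hR]
            gcongr
        _ = _ := by
            rw [← ENNReal.ofReal_mul (by positivity)]
            congr 1
            ring
    have h1 := regQ (kl_meas a w σ η M L κ) hki hkB hη hη1 hM hH0 hqm hq0 hkq hMj
      (A₁ := (2 ^ r * P) ^ 1 * R) (B₁ := (2 ^ r * P) ^ 1 * R * (4 / g))
      (A₂ := (2 ^ r * P) ^ 2 * R) (B₂ := (2 ^ r * P) ^ 2 * R * (4 / g))
      (by positivity) (by positivity) (by positivity) (by positivity)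
      (hwin 1 one_ne_zero) (hwin 2 two_ne_zero)
    refine h1.trans (ENNReal.ofReal_le_ofReal ?_)
    have hGG : 1 ≤ 2 * (M / g) := by
      rw [← mul_div_assoc, le_div_iff₀ hg0]
      linarith
    have h2 := alg_trip (c := 2 ^ r * P) (R := R) (G := M / g) (K₁ := K₁)
      (A₁M := (2 ^ r * P) ^ 1 * R + (2 ^ r * P) ^ 1 * R * (4 / g) * M)
      (A₁B₁ := (2 ^ r * P) ^ 1 * R + (2 ^ r * P) ^ 1 * R * (4 / g))
      (A₂ := (2 ^ r * P) ^ 2 * R) (B₂M := (2 ^ r * P) ^ 2 * R * (4 / g) * M)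
      (by positivity) hR0 hGG hK₁0 (by ring) (by
        have h3 : 4 / g ≤ 4 / c := div_le_div_of_nonneg_left (by norm_num) hc0 (le_max_left _ _)
        have h4 : 0 ≤ 2 ^ r * P * R := by positivity
        calc (2 ^ r * P) ^ 1 * R + (2 ^ r * P) ^ 1 * R * (4 / g) = 2 ^ r * P * R * (1 + 4 / g) := by
              ring
          _ ≤ 2 ^ r * P * R * (1 + 4 / c) := by gcongr
          _ = _ := by rw [hK₁]) rfl (by ring)
    have h5 : (2 ^ r * P) ^ 4 * R ^ 3 * (M / g) ^ 2 ≤ D₁ * (M ^ (2 * β') * X ^ p) := by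
      have h6 : M / g ≤ M / Λ := div_le_div_of_nonneg_left hM.le hΛ0 (le_max_right _ _)
      have h7 : ρ⁻¹ ≤ X := by
        rw [hρ, ← inv_pow, hX]
        norm_num
        exact pow_le_pow_right₀ (by norm_num) (hκL j₀)
      have h8 := alg_size (r := r) (Lam_rpow hC₁ hβ0 κ (κ j₀)) hΛ0 hρ0 hM hΛ2 hβ1 hσ h7
      calc (2 ^ r * P) ^ 4 * R ^ 3 * (M / g) ^ 2 ≤ (2 ^ r * P) ^ 4 * R ^ 3 * (M / Λ) ^ 2 := by
            have h9 : 0 ≤ M / g := by positivity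
            gcongr
        _ = (2 ^ r) ^ 4 * (4 * m₀⁻¹) ^ 3 * (P ^ 4 * ρ ^ 3 * (M / Λ) ^ 2) := by rw [hR]; ring
        _ ≤ (2 ^ r) ^ 4 * (4 * m₀⁻¹) ^ 3 * ((C₁ ^ 2 * (16 : ℝ) ^ r * 2 ^ (2 * β' - 2)) *
            (M ^ (2 * β') * X ^ p)) := by gcongr
        _ = _ := by rw [hD₁]; ring
    have hH4 : H ^ 4 * (M⁻¹) ^ 3 * M ^ (2 * β') = K ^ 4 * E ^ 4 * M ^ p := by
      have e1 : H = K * M ^ σ * E := by rw [hH, hK]; unfold Hc; rw [hE]
      have e2 : (M ^ σ) ^ 4 * (M⁻¹) ^ 3 * M ^ (2 * β') = M ^ p := by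
        rw [← Real.rpow_natCast (M ^ σ), ← Real.rpow_mul hM.le, ← Real.rpow_natCast (M⁻¹),
          Real.inv_rpow hM.le, ← Real.rpow_neg hM.le, ← Real.rpow_add hM, ← Real.rpow_add hM]
        congr 1
        push_cast
        rw [hp]
        ring
      rw [e1, ← e2]
      ring
    have hj1 : (j : ℝ) + 1 ≤ 2 * ((n : ℝ) + 1) := by
      have : (j : ℝ) ≤ 2 * n := by exact_mod_cast hj
      linarith
    have hj0 : (0 : ℝ) ≤ j := Nat.cast_nonneg j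
    have hn0 : (0 : ℝ) ≤ n := Nat.cast_nonneg n
    have hscale := hs n j
    calc _ ≤ 2 * (H ^ 4 * M⁻¹ ^ 3 * (64 * (2 * ((n : ℝ) + 1)) * ((6 * (6 + 4 * K₁)) *
          (D₁ * (M ^ (2 * β') * X ^ p))))) := by
          have h9 : ((2 ^ r * P) ^ 1 * R + (2 ^ r * P) ^ 1 * R * (4 / g) * M) *
              ((2 ^ r * P) ^ 2 * R * ((2 ^ r * P) ^ 1 * R + (2 ^ r * P) ^ 1 * R * (4 / g) * M) +
              (2 ^ r * P) ^ 2 * R * (4 / g) * M * ((2 ^ r * P) ^ 1 * R +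
                (2 ^ r * P) ^ 1 * R * (4 / g))) ≤ (6 * (6 + 4 * K₁)) *
              (D₁ * (M ^ (2 * β') * X ^ p)) :=
            h2.trans (mul_le_mul_of_nonneg_left h5 (by positivity))
          gcongr
      _ = 256 * (6 * (6 + 4 * K₁)) * D₁ * ((n : ℝ) + 1) *
          ((H ^ 4 * M⁻¹ ^ 3 * M ^ (2 * β')) * X ^ p) := by ring
      _ = 256 * (6 * (6 + 4 * K₁)) * D₁ * ((n : ℝ) + 1) * (K ^ 4 * (M ^ p * X ^ p * E ^ 4)) := by
          rw [hH4]
          ring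
      _ ≤ 256 * (6 * (6 + 4 * K₁)) * D₁ * ((n : ℝ) + 1) *
          (K ^ 4 * (Cs * ((2 : ℝ) ^ n) ^ p)) := by gcongr
      _ = _ := by ring

end Pool.Agent.T6.H79.BZ5
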