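import Pool.Agent.T6.H79.BZ4.AeA
import Pool.Agent.T6.H79.BZ5.Blk

set_option autoImplicit false

/-!
# Barnes zeta functions, fourth moment for all weights, part 4: almost all shifts
-/

namespace Pool.Agent.T6.H79.BZ5

open Finset Filter Topology MeasureTheory Complex FourierTransform
open Pool.Agent.H131R5.BZ Pool.Agent.Y930.Bz Pool.Agent.Y616.BM Pool.Agent.T6.H60.BC
open Pool.Agent.T6.H60.BD Pool.Agent.T6.H79.BZ4

/-- abstract form of the Borel–Cantelli argument -/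
lemma ae_of_avg' {J : ℕ → ℝ → ENNReal} (hJ : ∀ n, Measurable (J n)) {C : ℝ} (hC : 0 ≤ C) (q : ℕ)
    {S : ℕ → ℝ} (hS : ∀ n, 0 < S n)
    (h : ∀ n : ℕ, ∫⁻ α in Set.Ioi (0 : ℝ), ENNReal.ofReal (α * Real.exp (-α)) * J n α ≤
      ENNReal.ofReal (C * ((n : ℝ) + 1) ^ q * S n)) :
    ∀ᵐ α : ℝ, 0 < α → ∃ B : ℝ, 0 ≤ B ∧ ∀ n : ℕ, J n α ≤
      ENNReal.ofReal (B * ((n : ℝ) + 1) ^ (q + 2) * S n) := by
  set c : ℕ → ENNReal := fun n => ENNReal.ofReal ((((n : ℝ) + 1) ^ (q + 2) * S n)⁻¹)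
    with hc
  set wt : ℝ → ENNReal := fun α => ENNReal.ofReal (α * Real.exp (-α)) with hwt
  have hwtm : Measurable wt := by
    refine Measurable.ennreal_ofReal ?_
    fun_prop
  have hterm : ∀ n, Measurable fun α => c n * (wt α * J n α) := fun n =>
    (hwtm.mul (hJ n)).const_mul _
  have hsum : ∫⁻ α in Set.Ioi (0 : ℝ), ∑' n, c n * (wt α * J n α) ≠ ⊤ := by
    rw [lintegral_tsum fun n => (hterm n).aemeasurable]
    have h1 : ∀ n, ∫⁻ α in Set.Ioi (0 : ℝ), c n * (wt α * J n α) ≤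
        ENNReal.ofReal (C * (1 / ((n : ℝ) + 1) ^ 2)) := by
      intro n
      have hSn := hS n
      have hmul : Measurable fun α => wt α * J n α := hwtm.mul (hJ n)
      rw [lintegral_const_mul _ hmul]
      refine (mul_le_mul_right (h n) _).trans ?_
      simp only [hc]
      rw [← ENNReal.ofReal_mul (by positivity)]
      apply le_of_eq
      congr 1
      rw [pow_add]
      field_simp
    refine ne_top_of_le_ne_top ?_ (ENNReal.tsum_le_tsum h1)
    have hs : Summable fun n : ℕ => C * (1 / ((n : ℝ) + 1) ^ 2) := by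
      apply Summable.mul_left
      have := (summable_nat_add_iff 1).2 (Real.summable_one_div_nat_pow.2 (show 1 < 2 by norm_num))
      refine this.congr fun n => ?_
      push_cast
      rfl
    rw [← ENNReal.ofReal_tsum_of_nonneg (fun n => by positivity) hs]
    exact ENNReal.ofReal_ne_top
  have hae := ae_lt_top (Measurable.ennreal_tsum hterm) hsum
  rw [ae_restrict_iff' measurableSet_Ioi] at hae
  filter_upwards [hae] with α hα hα0
  have hfin := hα hα0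
  have hw0 : 0 < α * Real.exp (-α) := by positivity
  refine ⟨(∑' n, c n * (wt α * J n α)).toReal * (α * Real.exp (-α))⁻¹, by positivity,
    fun n => ?_⟩
  have hSn := hS n
  obtain ⟨P, hP⟩ : ∃ P : ℝ, P = ((n : ℝ) + 1) ^ (q + 2) * S n := ⟨_, rfl⟩
  have hP0 : 0 < P := by rw [hP]; positivity
  have h2 : c n * (wt α * J n α) ≤ ENNReal.ofReal (∑' n, c n * (wt α * J n α)).toReal := by
    rw [ENNReal.ofReal_toReal hfin.ne]
    exact ENNReal.le_tsum (f := fun n => c n * (wt α * J n α)) n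
  have h3 : ENNReal.ofReal (P * (α * Real.exp (-α))⁻¹) * (c n * wt α) = 1 := by
    simp only [hc, hwt]
    rw [← hP, ← ENNReal.ofReal_mul (by positivity), ← ENNReal.ofReal_mul (by positivity)]
    have : P * (α * Real.exp (-α))⁻¹ * (P⁻¹ * (α * Real.exp (-α))) = 1 := by
      field_simp
    rw [this, ENNReal.ofReal_one]
  calc J n α = ENNReal.ofReal (P * (α * Real.exp (-α))⁻¹) * (c n * (wt α * J n α)) := by
        rw [← mul_assoc (c n), ← mul_assoc, h3, one_mul]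
    _ ≤ ENNReal.ofReal (P * (α * Real.exp (-α))⁻¹) *
        ENNReal.ofReal (∑' n, c n * (wt α * J n α)).toReal := by gcongr
    _ = _ := by
        rw [← ENNReal.ofReal_mul (by positivity)]
        congr 1
        rw [hP]
        ring

/-- almost all shifts larger than a given one -/
theorem ae_shift5 {r : ℕ} (hr : 0 < r) {w : Fin r → ℝ} (hw : ∀ j, 0 < w j) {σ β : ℝ}
    (hσ : 1 / 2 ≤ σ) (hβ : 1 ≤ β) (h : PtB w σ β) {ε : ℝ} (hε : 0 < ε) {a : ℝ} (ha : 0 < a)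
    {y₀ : ℝ} (hy : 0 < y₀) (hy1 : y₀ ≤ 1) :
    ∀ᵐ α : ℝ, 0 < α → ∃ B : ℝ, 0 ≤ B ∧ ∀ n : ℕ,
      ∑ j ∈ Finset.range (2 * n + 1), ∫⁻ ξ : ℝ,
        ‖𝓕 (kb (a + α) w σ ((1 / 2 : ℝ) ^ n) (y₀ * 2 ^ j)) ξ‖ₑ ^ 4 ≤
      ENNReal.ofReal (B * ((n : ℝ) + 1) ^ (5 * r + 4) *
        ((2 : ℝ) ^ n) ^ (4 * σ + 2 * (β + ε) - 3)) := by
  obtain ⟨C, hC, hb⟩ := blk_one hr hw hσ hβ h hε ha hy hy1
  obtain ⟨p, hp⟩ : ∃ p : ℝ, p = 4 * σ + 2 * (β + ε) - 3 := ⟨_, rfl⟩
  rw [← hp] at hb ⊢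
  have hσ0 : 0 < σ := by linarith
  obtain ⟨m₀, hm0, hm1, hm⟩ := exists_low hw
  set K : ℕ → ℕ → ℝ → ℂ := fun n j => kb a w σ ((1 / 2 : ℝ) ^ n) (y₀ * 2 ^ j) with hK
  set G : ℕ → ℕ → (Fin r → ℕ) → ℝ → ℂ := fun n j κ =>
    kl a w σ ((1 / 2 : ℝ) ^ n) (y₀ * 2 ^ j) (n - j) κ with hG
  set Z : ℕ → ℝ → ℂ := fun n u => zr u ((1 / 2 : ℝ) ^ n) with hZ
  have hZm : ∀ n, Measurable (Z n) := fun n => Pool.Agent.T6.H79.BZ4.zr_meas _
  have hη : ∀ n : ℕ, (0 : ℝ) < (1 / 2 : ℝ) ^ n := fun n => by positivity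
  have hη1 : ∀ n : ℕ, (1 / 2 : ℝ) ^ n ≤ 1 := fun n => pow_le_one₀ (by norm_num) (by norm_num)
  have hM : ∀ j : ℕ, 0 < y₀ * 2 ^ j := fun j => by positivity
  have hre : ∀ n u, 0 ≤ (Z n u).re := by
    intro n u
    simp only [hZ]
    rw [zr_re]
    have h2 : 0 ≤ Real.sin ((1 / 2 : ℝ) ^ n) :=
      le_trans (by have := hη n; positivity) (sin_ge (hη n).le (hη1 n))
    have := Real.exp_pos (-u)
    positivity
  have hKi : ∀ n j, Integrable (K n j) := fun n j => (kb_int' ha hw hσ0 hy n j).1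
  have hGi : ∀ n j κ, Integrable (G n j κ) := fun n j κ => by
    simp only [hG]
    unfold kl
    exact (hKi n j).indicator (LS_meas _ _ _ _)
  have hGm : ∀ n j κ, Measurable (G n j κ) := fun n j κ => kl_meas _ _ _ _ _ _ _
  -- the bound of the kernel
  have hGb : ∀ n j κ, ∃ B : ℝ, ∀ u, ‖G n j κ u‖ ≤ B := by
    intro n j κ
    set δ : ℝ := min 1 (3 * m₀ * y₀) with hδd
    have hδ : 0 < δ := lt_min one_pos (by positivity)
    have hδ1 : δ ≤ 1 := min_le_left _ _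
    have hδ2 : δ ≤ 3 * m₀ * y₀ := min_le_right _ _
    have hδx : ∀ i, δ * (1 / 2 : ℝ) ^ n ≤ w i * (3 * (y₀ * 2 ^ j) * (1 / 2 : ℝ) ^ n) := by
      intro i
      have hwi := hm i
      have hwi0 := (hw i).le
      have h1 : (1 : ℝ) ≤ 2 ^ j := one_le_pow₀ (by norm_num)
      calc δ * (1 / 2 : ℝ) ^ n ≤ (3 * m₀ * y₀) * (1 / 2 : ℝ) ^ n := by gcongr
        _ = m₀ * (3 * (y₀ * 1) * (1 / 2 : ℝ) ^ n) := by ring
        _ ≤ _ := by gcongr
    exact ⟨_, fun u => (kl_norm _ _ _ _ _ _ _ u).trans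
      (kb_bdd ha hw hσ0 (hη n) (hη1 n) (hM j) hδ hδ1 hδx u)⟩
  have hslice : ∀ n j κ (α : ℝ), 0 < α → F4 (G n j κ) (Z n) α = J4 (G n j κ) (Z n) α := by
    intro n j κ α hα
    obtain ⟨B, hB⟩ := hGb n j κ
    exact four_slice (hGm n j κ) (hGi n j κ) hB (hZm n) (hre n) hα.le
  set cd : ℕ → ℕ → ENNReal := fun n j => (((KL r (n - j)).card : ℕ) : ENNReal) ^ 4 with hcd
  have hdec : ∀ n j (α : ℝ), 0 < α → F4 (K n j) (Z n) α ≤
      cd n j * ∑ κ ∈ KL r (n - j), J4 (G n j κ) (Z n) α := by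
    intro n j α hα
    have h1 := F4_dec (KL r (n - j)) (k := K n j) (kk := fun κ => G n j κ)
      (fun u => kl_sum a w σ _ _ _ u) (fun κ _ => hGi n j κ) (fun κ _ => hGm n j κ)
      (hZm n) (hre n) hα.le
    refine h1.trans (le_of_eq ?_)
    congr 1
    exact Finset.sum_congr rfl fun κ _ => hslice n j κ α hα
  have hJm1 : ∀ n j, Measurable fun α => cd n j * ∑ κ ∈ KL r (n - j), J4 (G n j κ) (Z n) α :=
    fun n j => (Finset.measurable_fun_sum _ fun κ _ => J4_meas (hGm n j κ) (hZm n)).const_mul _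
  have hJm : ∀ n, Measurable fun α => ∑ j ∈ Finset.range (2 * n + 1),
      cd n j * ∑ κ ∈ KL r (n - j), J4 (G n j κ) (Z n) α :=
    fun n => Finset.measurable_fun_sum _ fun j _ => hJm1 n j
  have hwtm : Measurable fun α : ℝ => ENNReal.ofReal (α * Real.exp (-α)) := by
    refine Measurable.ennreal_ofReal ?_
    fun_prop
  have hm1 : ∀ n j κ, Measurable fun α : ℝ =>
      ENNReal.ofReal (α * Real.exp (-α)) * J4 (G n j κ) (Z n) α := fun n j κ =>
    hwtm.mul (J4_meas (hGm n j κ) (hZm n))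
  have hm2 : ∀ n j, Measurable fun α : ℝ => ENNReal.ofReal (α * Real.exp (-α)) *
      (cd n j * ∑ κ ∈ KL r (n - j), J4 (G n j κ) (Z n) α) := fun n j => hwtm.mul (hJm1 n j)
  have havg1 : ∀ n j : ℕ, j ≤ 2 * n → ∫⁻ α in Set.Ioi (0 : ℝ),
      ENNReal.ofReal (α * Real.exp (-α)) *
        (cd n j * ∑ κ ∈ KL r (n - j), J4 (G n j κ) (Z n) α) ≤
      ENNReal.ofReal (C * ((n : ℝ) + 1) ^ (5 * r + 1) * ((2 : ℝ) ^ n) ^ p) := by
    intro n j hj
    calc _ = ∫⁻ α in Set.Ioi (0 : ℝ), cd n j * ∑ κ ∈ KL r (n - j),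
          ENNReal.ofReal (α * Real.exp (-α)) * J4 (G n j κ) (Z n) α := by
          refine lintegral_congr fun α => ?_
          rw [mul_left_comm, Finset.mul_sum]
      _ = cd n j * ∑ κ ∈ KL r (n - j), ∫⁻ α in Set.Ioi (0 : ℝ),
          ENNReal.ofReal (α * Real.exp (-α)) * J4 (G n j κ) (Z n) α := by
          rw [lintegral_const_mul _ (Finset.measurable_fun_sum _ fun κ _ => hm1 n j κ),
            lintegral_finsetSum _ fun κ _ => hm1 n j κ]
      _ ≤ cd n j * ∑ _κ ∈ KL r (n - j),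
          ENNReal.ofReal (C * ((n : ℝ) + 1) * ((2 : ℝ) ^ n) ^ p) := by
          gcongr with κ hκ
          refine le_trans (le_of_eq ?_) (hb n j hj κ hκ)
          refine setLIntegral_congr_fun measurableSet_Ioi fun α hα => ?_
          show ENNReal.ofReal (α * Real.exp (-α)) * J4 (G n j κ) (Z n) α =
            ENNReal.ofReal (α * Real.exp (-α)) * F4 (G n j κ) (Z n) α
          rw [hslice n j κ α hα]
      _ = ENNReal.ofReal ((((KL r (n - j)).card : ℕ) : ℝ) ^ 5 * (C * ((n : ℝ) + 1) *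
          ((2 : ℝ) ^ n) ^ p)) := by
          simp only [hcd]
          rw [Finset.sum_const, nsmul_eq_mul, ← mul_assoc, ← pow_succ, ← ENNReal.ofReal_natCast,
            ← ENNReal.ofReal_pow (Nat.cast_nonneg _), ← ENNReal.ofReal_mul (by positivity)]
      _ ≤ _ := by
          apply ENNReal.ofReal_le_ofReal
          have h1 : (((KL r (n - j)).card : ℕ) : ℝ) ≤ ((n : ℝ) + 1) ^ r := by
            rw [KL_card]
            push_cast
            have h2 : ((n - j : ℕ) : ℝ) ≤ n := by exact_mod_cast Nat.sub_le n j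
            gcongr
          calc (((KL r (n - j)).card : ℕ) : ℝ) ^ 5 * (C * ((n : ℝ) + 1) * ((2 : ℝ) ^ n) ^ p) ≤
              (((n : ℝ) + 1) ^ r) ^ 5 * (C * ((n : ℝ) + 1) * ((2 : ℝ) ^ n) ^ p) := by gcongr
            _ = _ := by
                have e1 : 5 * r + 1 = r * 5 + 1 := by ring
                rw [← pow_mul, e1, pow_succ]
                ring
  have havg : ∀ n : ℕ, ∫⁻ α in Set.Ioi (0 : ℝ), ENNReal.ofReal (α * Real.exp (-α)) *
      ∑ j ∈ Finset.range (2 * n + 1), cd n j * ∑ κ ∈ KL r (n - j), J4 (G n j κ) (Z n) α ≤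
      ENNReal.ofReal ((2 * C) * ((n : ℝ) + 1) ^ (5 * r + 2) * ((2 : ℝ) ^ n) ^ p) := by
    intro n
    calc _ = ∫⁻ α in Set.Ioi (0 : ℝ), ∑ j ∈ Finset.range (2 * n + 1),
          ENNReal.ofReal (α * Real.exp (-α)) *
            (cd n j * ∑ κ ∈ KL r (n - j), J4 (G n j κ) (Z n) α) := by
          refine lintegral_congr fun α => ?_
          rw [Finset.mul_sum]
      _ = ∑ j ∈ Finset.range (2 * n + 1), ∫⁻ α in Set.Ioi (0 : ℝ),
          ENNReal.ofReal (α * Real.exp (-α)) *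
            (cd n j * ∑ κ ∈ KL r (n - j), J4 (G n j κ) (Z n) α) := by
          rw [lintegral_finsetSum _ fun j _ => hm2 n j]
      _ ≤ ∑ _j ∈ Finset.range (2 * n + 1), ENNReal.ofReal (C * ((n : ℝ) + 1) ^ (5 * r + 1) *
          ((2 : ℝ) ^ n) ^ p) := by
          refine Finset.sum_le_sum fun j hj => ?_
          exact havg1 n j (Nat.lt_succ_iff.1 (Finset.mem_range.1 hj))
      _ ≤ _ := by
          rw [Finset.sum_const, Finset.card_range, nsmul_eq_mul, ← ENNReal.ofReal_natCast,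
            ← ENNReal.ofReal_mul (by positivity)]
          apply ENNReal.ofReal_le_ofReal
          have h4 : ((2 * n + 1 : ℕ) : ℝ) ≤ 2 * ((n : ℝ) + 1) := by
            push_cast
            linarith
          calc ((2 * n + 1 : ℕ) : ℝ) * (C * ((n : ℝ) + 1) ^ (5 * r + 1) * ((2 : ℝ) ^ n) ^ p) ≤
              (2 * ((n : ℝ) + 1)) * (C * ((n : ℝ) + 1) ^ (5 * r + 1) * ((2 : ℝ) ^ n) ^ p) := by
                gcongr
            _ = _ := by ring
  filter_upwards [ae_of_avg' hJm (by positivity) (5 * r + 2) (S := fun n => ((2 : ℝ) ^ n) ^ p)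
    (fun n => by positivity) havg] with α hα hα0
  obtain ⟨B, hB, hb'⟩ := hα hα0
  refine ⟨B, hB, fun n => ?_⟩
  refine le_trans ?_ (hb' n)
  refine Finset.sum_le_sum fun j _ => ?_
  refine le_trans (le_of_eq ?_) (hdec n j α hα0)
  unfold F4
  simp only [hK, hZ]
  rw [kb_add]

end Pool.Agent.T6.H79.BZ5
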