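import Pool.Agent.T6.H79.BZ4.Fin
import Pool.Agent.T6.H79.BZ5.AeB

set_option autoImplicit false

/-!
# Barnes zeta functions, fourth moment for all weights, part 5: from the window bound to the moments
-/

namespace Pool.Agent.T6.H79.BZ5

open Finset Filter Topology MeasureTheory Complex FourierTransform
open Pool.Agent.H131R5.BZ Pool.Agent.Y930.Bz Pool.Agent.Y616.BM Pool.Agent.T6.H60.BC
open Pool.Agent.T6.H60.BD Pool.Agent.T6.H79.BZ4

/-- the choice of the right line -/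
lemma ex_sigma5 {r σ₀ σ q ε : ℝ} (hσ : σ₀ < σ) (hq : 4 ≤ q)
    (hσq : q * (r - σ) ≤ 4 * (r - σ₀)) (hε : 0 < ε) (hε1 : ε ≤ 1) :
    ∃ σ₁ : ℝ, r < σ₁ ∧ σ < σ₁ ∧ (q - ε) * (σ₁ - σ) ≤ 4 * (σ₁ - σ₀) := by
  set R := max r σ with hR
  have hRr : r ≤ R := le_max_left _ _
  have hRσ : σ ≤ R := le_max_right _ _
  set F : ℝ := 4 * (R - σ₀) - (q - ε) * (R - σ) with hF
  have hF0 : 0 < F := by
    rcases le_or_gt r σ with h | h
    · have h1 : R = σ := max_eq_right h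
      rw [hF, h1]
      have : (q - ε) * (σ - σ) = 0 := by ring
      rw [this]
      linarith
    · have h1 : R = r := max_eq_left h.le
      rw [hF, h1]
      have h5 : 0 < ε * (r - σ) := by
        have : 0 < r - σ := by linarith
        positivity
      linarith
  have hq1 : 0 < q + 1 := by linarith
  refine ⟨R + F / (q + 1), ?_, ?_, ?_⟩
  · have : 0 < F / (q + 1) := by positivity
    linarith
  · have : 0 < F / (q + 1) := by positivity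
    linarith
  · have h1 : F / (q + 1) * (q + 1) = F := by field_simp
    have h2 : 0 < F / (q + 1) := by positivity
    have h3 : (q - ε) * (R + F / (q + 1) - σ) = (q - ε) * (R - σ) + (q - ε) * (F / (q + 1)) := by
      ring
    have h4 : 4 * (R + F / (q + 1) - σ₀) = 4 * (R - σ₀) + 4 * (F / (q + 1)) := by
      ring
    rw [h3, h4]
    nlinarith

section
variable {r : ℕ} {a : ℝ} {w : Fin r → ℝ} {b : ℕ → ℂ} {ρ C₀ σ y₀ : ℝ}

/-- the fourth moment over a window -/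
theorem window5 (hσ : 1 / 2 ≤ σ) {P : ℝ} (hP : 4 * σ - 1 ≤ P) (ha : 0 < a) (hw : ∀ j, 0 < w j)
    (hρ : 0 < ρ)
    (hρ1 : ρ ≤ 1) (h0 : ∀ z : ℂ, z ≠ 0 → ‖z‖ ≤ ρ → ‖Kt a w b z‖ ≤ C₀) (hy : 0 < y₀) (hy1 : y₀ ≤ 1)
    (hyw : ∀ j, w j * (2 * Real.pi * y₀ / Real.cos 1) ≤ 1 / 2) {q : ℕ}
    (hB : ∃ B : ℝ, 0 ≤ B ∧ ∀ n : ℕ,
      ∑ j ∈ Finset.range (2 * n + 1), ∫⁻ ξ : ℝ,
        ‖𝓕 (kb a w σ ((1 / 2 : ℝ) ^ n) (y₀ * 2 ^ j)) ξ‖ₑ ^ 4 ≤
      ENNReal.ofReal (B * ((n : ℝ) + 1) ^ q * ((2 : ℝ) ^ n) ^ P))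
    {ε : ℝ} (hε : 0 < ε) (hε1 : ε ≤ 1) : ∃ C : ℝ, 0 ≤ C ∧ ∀ (n : ℕ) (y : ℝ),
      ∫⁻ τ in Set.Icc ((2 : ℝ) ^ n) (2 * 2 ^ n),
        ‖𝓕 (kth a w b σ (Real.pi / 2 - (1 / 2 : ℝ) ^ n))
          ((2 * Real.pi)⁻¹ * (y + τ))‖ₑ ^ 4 ≤
      ENNReal.ofReal (C * ((2 : ℝ) ^ n) ^ (P + ε)) := by
  obtain ⟨B, hB0, hB⟩ := hB
  obtain ⟨C₁, hC₁, hrem⟩ := rem_lint (σ := σ) ha hw hρ h0 hσ (ε := ε / 4) (by positivity)
    (by linarith) hy hy1 hyw
  obtain ⟨C₂, hC₂, hpoly⟩ := poly_le (q + 4) hε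
  have hpi := Real.pi_pos
  refine ⟨16 * (16 * (2 * Real.pi) * B * C₂ + C₁ ^ 4), by positivity, fun n y => ?_⟩
  set T : ℝ := (2 : ℝ) ^ n with hT
  have hT1 : 1 ≤ T := one_le_pow₀ (by norm_num)
  have hT0 : 0 < T := by positivity
  set η : ℝ := (1 / 2 : ℝ) ^ n with hη
  set f := kth a w b σ (Real.pi / 2 - η) with hf
  set k : ℕ → ℝ → ℂ := fun j => kb a w σ η (y₀ * 2 ^ j) with hk
  set R := rem a w b σ y₀ n with hR
  have hki : ∀ j, Integrable (k j) := fun j => (kb_int' ha hw (by linarith) hy n j).1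
  have hRi : Integrable R := rem_int ha hw hρ hρ1 h0 (by linarith) hy n
  have hdec : ∀ u, f u = ∑ j ∈ Finset.range (2 * n + 1), k j u + R u := fun u =>
    rem_spec a w b σ y₀ n u
  have hpt : ∀ ξ, ‖𝓕 f ξ‖ₑ ^ 4 ≤ 16 * (((2 * n + 1 : ℕ) : ENNReal) ^ 4 *
      (∑ j ∈ Finset.range (2 * n + 1), ‖𝓕 (k j) ξ‖ₑ ^ 4) +
      ENNReal.ofReal (C₁ * T ^ (σ - 1 / 2 + ε / 4)) ^ 4) := by
    intro ξ
    have h1 := four_dec (Finset.range (2 * n + 1)) (fun j _ => hki j) hRi hdec ξ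
    have h2 : ∫⁻ u, ‖R u‖ₑ ≤ ENNReal.ofReal (C₁ * T ^ (σ - 1 / 2 + ε / 4)) := hrem n
    calc ‖𝓕 f ξ‖ₑ ^ 4 ≤ (∑ j ∈ Finset.range (2 * n + 1), ‖𝓕 (k j) ξ‖ₑ +
          ENNReal.ofReal (C₁ * T ^ (σ - 1 / 2 + ε / 4))) ^ 4 := by
          gcongr
          exact h1.trans (add_le_add le_rfl h2)
      _ ≤ 16 * ((∑ j ∈ Finset.range (2 * n + 1), ‖𝓕 (k j) ξ‖ₑ) ^ 4 +
          ENNReal.ofReal (C₁ * T ^ (σ - 1 / 2 + ε / 4)) ^ 4) := add_pow4 _ _
      _ ≤ _ := by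
          gcongr
          have h3 := sum_pow_le (Finset.range (2 * n + 1)) (fun j => ‖𝓕 (k j) ξ‖ₑ)
            (k := 4) (by norm_num)
          rwa [Finset.card_range] at h3
  set R4 : ENNReal := ENNReal.ofReal (C₁ * T ^ (σ - 1 / 2 + ε / 4)) ^ 4 with hR4
  have hkm : ∀ j, Measurable fun τ : ℝ => ‖𝓕 (k j) ((2 * Real.pi)⁻¹ * (y + τ))‖ₑ ^ 4 := by
    intro j
    have h4 : Measurable fun τ : ℝ => (2 * Real.pi)⁻¹ * (y + τ) := by fun_prop
    exact ((four_meas (hki j)).comp h4).pow_const 4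
  calc ∫⁻ τ in Set.Icc T (2 * T), ‖𝓕 f ((2 * Real.pi)⁻¹ * (y + τ))‖ₑ ^ 4
      ≤ ∫⁻ τ in Set.Icc T (2 * T), (16 * ((2 * n + 1 : ℕ) : ENNReal) ^ 4 *
        (∑ j ∈ Finset.range (2 * n + 1), ‖𝓕 (k j) ((2 * Real.pi)⁻¹ * (y + τ))‖ₑ ^ 4) +
        16 * R4) := by
        refine lintegral_mono fun τ => (hpt _).trans (le_of_eq ?_)
        ring
    _ = 16 * ((2 * n + 1 : ℕ) : ENNReal) ^ 4 * (∑ j ∈ Finset.range (2 * n + 1),
        ∫⁻ τ in Set.Icc T (2 * T), ‖𝓕 (k j) ((2 * Real.pi)⁻¹ * (y + τ))‖ₑ ^ 4) +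
        16 * R4 * ENNReal.ofReal T := by
        rw [lintegral_add_right _ measurable_const, lintegral_const_mul _
          (Finset.measurable_fun_sum _ fun j _ => hkm j), lintegral_finsetSum _ fun j _ => hkm j,
          setLIntegral_const, Real.volume_Icc]
        congr 3
        ring
    _ ≤ 16 * ((2 * n + 1 : ℕ) : ENNReal) ^ 4 * (ENNReal.ofReal (2 * Real.pi) *
        ENNReal.ofReal (B * ((n : ℝ) + 1) ^ q * T ^ P)) +
        16 * R4 * ENNReal.ofReal T := by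
        gcongr
        calc (∑ j ∈ Finset.range (2 * n + 1),
            ∫⁻ τ in Set.Icc T (2 * T), ‖𝓕 (k j) ((2 * Real.pi)⁻¹ * (y + τ))‖ₑ ^ 4) ≤
            ∑ j ∈ Finset.range (2 * n + 1), ENNReal.ofReal (2 * Real.pi) *
              ∫⁻ ξ : ℝ, ‖𝓕 (k j) ξ‖ₑ ^ 4 := by
              refine Finset.sum_le_sum fun j _ => ?_
              refine (setLIntegral_le_lintegral _ _).trans (le_of_eq ?_)
              exact four_scale (hki j) y
          _ = ENNReal.ofReal (2 * Real.pi) * ∑ j ∈ Finset.range (2 * n + 1),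
              ∫⁻ ξ : ℝ, ‖𝓕 (k j) ξ‖ₑ ^ 4 := (Finset.mul_sum _ _ _).symm
          _ ≤ _ := by
              gcongr
              exact hB n
    _ = ENNReal.ofReal (16 * ((2 * n + 1 : ℕ) : ℝ) ^ 4 * (2 * Real.pi *
        (B * ((n : ℝ) + 1) ^ q * T ^ P)) +
        16 * (C₁ * T ^ (σ - 1 / 2 + ε / 4)) ^ 4 * T) := by
        rw [hR4, ENNReal.ofReal_add (by positivity) (by positivity),
          ENNReal.ofReal_mul (show (0 : ℝ) ≤ 16 * ((2 * n + 1 : ℕ) : ℝ) ^ 4 by positivity),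
          ENNReal.ofReal_mul (show (0 : ℝ) ≤ 16 by norm_num),
          ENNReal.ofReal_mul (show (0 : ℝ) ≤ 2 * Real.pi by positivity),
          ENNReal.ofReal_mul (show (0 : ℝ) ≤ 16 * (C₁ * T ^ (σ - 1 / 2 + ε / 4)) ^ 4 by positivity),
          ENNReal.ofReal_mul (show (0 : ℝ) ≤ 16 by norm_num),
          ENNReal.ofReal_pow (show (0 : ℝ) ≤ C₁ * T ^ (σ - 1 / 2 + ε / 4) by positivity),
          ENNReal.ofReal_pow (Nat.cast_nonneg _), ENNReal.ofReal_natCast]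
        norm_num
    _ ≤ _ := by
        apply ENNReal.ofReal_le_ofReal
        have hn4 : ((2 * n + 1 : ℕ) : ℝ) ^ 4 ≤ 16 * ((n : ℝ) + 1) ^ 4 := by
          have h6 : ((2 * n + 1 : ℕ) : ℝ) ≤ 2 * ((n : ℝ) + 1) := by
            push_cast
            linarith
          calc ((2 * n + 1 : ℕ) : ℝ) ^ 4 ≤ (2 * ((n : ℝ) + 1)) ^ 4 := by gcongr
            _ = _ := by ring
        have hrem4 : (C₁ * T ^ (σ - 1 / 2 + ε / 4)) ^ 4 * T = C₁ ^ 4 * T ^ (4 * σ - 1 + ε) := by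
          rw [mul_pow, ← Real.rpow_natCast (T ^ _), ← Real.rpow_mul hT0.le, mul_assoc]
          congr 1
          nth_rewrite 2 [← Real.rpow_one T]
          rw [← Real.rpow_add hT0]
          congr 1
          push_cast
          ring
        have hpo := hpoly n
        have hsplit : T ^ P * T ^ ε = T ^ (P + ε) := by
          rw [← Real.rpow_add hT0]
        have hle : T ^ (4 * σ - 1 + ε) ≤ T ^ (P + ε) :=
          Real.rpow_le_rpow_of_exponent_le hT1 (by linarith)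
        calc 16 * ((2 * n + 1 : ℕ) : ℝ) ^ 4 * (2 * Real.pi * (B * ((n : ℝ) + 1) ^ q *
              T ^ P)) + 16 * (C₁ * T ^ (σ - 1 / 2 + ε / 4)) ^ 4 * T ≤
            16 * (16 * ((n : ℝ) + 1) ^ 4) * (2 * Real.pi * (B * ((n : ℝ) + 1) ^ q *
              T ^ P)) + 16 * (C₁ * T ^ (σ - 1 / 2 + ε / 4)) ^ 4 * T := by gcongr
          _ = 16 * (16 * (2 * Real.pi) * B * ((n : ℝ) + 1) ^ (q + 4) * T ^ P) +
              16 * ((C₁ * T ^ (σ - 1 / 2 + ε / 4)) ^ 4 * T) := by ring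
          _ ≤ 16 * (16 * (2 * Real.pi) * B * (C₂ * T ^ ε) * T ^ P) +
              16 * (C₁ ^ 4 * T ^ (P + ε)) := by
              rw [hrem4]
              gcongr
          _ = 16 * (16 * (2 * Real.pi) * B * C₂ * (T ^ P * T ^ ε)) +
              16 * (C₁ ^ 4 * T ^ (P + ε)) := by ring
          _ = _ := by rw [hsplit]; ring

end

section
variable {r : ℕ} {a : ℝ} {w : Fin r → ℝ} {b : ℕ → ℂ} {c : ℕ → ℂ} {ρ C₀ y₀ : ℝ}

/-- all moments of the rotated Mellin transform -/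
theorem NN_moment5 {σ₀ β : ℝ} (hσ₀h : 1 / 2 ≤ σ₀) (hβ : 1 ≤ β) (ha : 0 < a) (hw : ∀ j, 0 < w j)
    (hc : Tay a w c) (hρ : 0 < ρ) (hρ1 : ρ ≤ 1)
    (h0 : ∀ z : ℂ, z ≠ 0 → ‖z‖ ≤ ρ → ‖Kt a w b z‖ ≤ C₀) (hy : 0 < y₀) (hy1 : y₀ ≤ 1)
    (hyw : ∀ j, w j * (2 * Real.pi * y₀ / Real.cos 1) ≤ 1 / 2) {qq : ℕ}
    (hB : ∃ B : ℝ, 0 ≤ B ∧ ∀ n : ℕ,
      ∑ j ∈ Finset.range (2 * n + 1), ∫⁻ ξ : ℝ,
        ‖𝓕 (kb a w σ₀ ((1 / 2 : ℝ) ^ n) (y₀ * 2 ^ j)) ξ‖ₑ ^ 4 ≤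
      ENNReal.ofReal (B * ((n : ℝ) + 1) ^ qq * ((2 : ℝ) ^ n) ^ (4 * σ₀ + 2 * β - 3)))
    {q σ : ℝ} (hq : 4 ≤ q) (hσ0 : σ₀ ≤ σ) (hσq : q * (r - σ) ≤ 4 * (r - σ₀))
    (hcase : σ₀ < r ∨ q = 4) {ε : ℝ} (hε : 0 < ε) (hε1 : ε ≤ 1) : ∃ C : ℝ, 0 ≤ C ∧ ∀ n : ℕ,
      ∫⁻ τ in Set.Icc ((2 : ℝ) ^ n) (2 * 2 ^ n),
        ENNReal.ofReal (‖NN a w b (Real.pi / 2 - (1 / 2 : ℝ) ^ n) ((σ : ℂ) + (τ : ℂ) * I)‖ ^ q) ≤
      ENNReal.ofReal (C * ((2 : ℝ) ^ n) ^ (q * (σ - 1 / 2) + (2 * β - 1) + ε)) := by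
  have hσh : 1 / 2 ≤ σ := by linarith
  obtain ⟨C₀', hC₀', hwin⟩ := window5 hσ₀h (P := 4 * σ₀ + 2 * β - 3) (by linarith) ha hw hρ hρ1 h0
    hy hy1 hyw hB (ε := ε / 2) (by positivity) (by linarith)
  have hwinN : ∀ (n : ℕ) (y : ℝ), ∫⁻ τ in Set.Icc ((2 : ℝ) ^ n) (2 * 2 ^ n),
      ‖NN a w b (Real.pi / 2 - (1 / 2 : ℝ) ^ n) ((σ₀ : ℂ) + ((y + τ : ℝ) : ℂ) * I)‖ₑ ^ 4 ≤
      ENNReal.ofReal (C₀' * ((2 : ℝ) ^ n) ^ (4 * σ₀ + 2 * β - 3 + ε / 2)) := by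
    intro n y
    refine le_trans (le_of_eq ?_) (hwin n y)
    refine lintegral_congr fun τ => ?_
    obtain ⟨hθ0, hθ1⟩ := theta_bds n
    rw [NN_eq ha hw hρ hρ1 h0 hθ0 hθ1 (by linarith)]
  rcases hσ0.eq_or_lt with heq | hlt
  · -- the critical line
    have hq4 : q = 4 := by
      rcases hcase with hcase | hcase
      · rw [← heq] at hσq
        nlinarith
      · exact hcase
    refine ⟨C₀', hC₀', fun n => ?_⟩
    have h1 := hwinN n 0
    have hT1 : (1 : ℝ) ≤ (2 : ℝ) ^ n := one_le_pow₀ (by norm_num)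
    refine le_trans (le_of_eq ?_) (h1.trans (ENNReal.ofReal_le_ofReal ?_))
    · refine lintegral_congr fun τ => ?_
      rw [heq, zero_add, hq4, ← ofReal_norm]
      have : (4 : ℝ) = ((4 : ℕ) : ℝ) := by norm_num
      rw [this, Real.rpow_natCast, ENNReal.ofReal_pow (norm_nonneg _)]
    · rw [hq4, ← heq]
      exact mul_le_mul_of_nonneg_left (Real.rpow_le_rpow_of_exponent_le hT1 (by linarith)) hC₀'
  · -- interpolation
    obtain ⟨C₂, B₂, hC₂, hB₂σ, hcrude⟩ := NN_crude ha hw hρ hρ1 h0 hσh hy hy1 hyw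
    have hB₂ : 0 < B₂ := by linarith
    set ε' : ℝ := min 1 (ε / (2 * B₂)) with hε'
    have hε'0 : 0 < ε' := lt_min one_pos (by positivity)
    have hε'1 : ε' ≤ 1 := min_le_left _ _
    have hε'B : ε' * B₂ ≤ ε / 2 := by
      calc ε' * B₂ ≤ (ε / (2 * B₂)) * B₂ := by gcongr; exact min_le_right _ _
        _ = ε / 2 := by field_simp
    obtain ⟨σ₁, hσ₁r, hσ₁σ, hσ₁q⟩ := ex_sigma5 (r := r) (σ₀ := σ₀) (σ := σ) (q := q) (ε := ε')
      hlt hq hσq hε'0 hε'1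
    obtain ⟨C₁, hC₁, hright⟩ := NN_right ha hw hc hρ hρ1 h0 hσ₁r (by linarith)
    have h01 : σ₀ < σ₁ := by linarith
    set ϑ : ℝ := (σ - σ₀) / (σ₁ - σ₀) with hϑ
    have hD : 0 < σ₁ - σ₀ := by linarith
    have hϑ0 : 0 < ϑ := div_pos (by linarith) hD
    have hϑ1 : ϑ < 1 := by rw [hϑ, div_lt_one hD]; linarith
    have hϑe : 1 - ϑ = (σ₁ - σ) / (σ₁ - σ₀) := by rw [hϑ]; field_simp; ring
    have hσe : (1 - ϑ) * σ₀ + ϑ * σ₁ = σ := by rw [hϑe, hϑ]; field_simp; ring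
    set p : ℝ := 4 / (1 - ϑ) with hp
    have hs1 : 0 < σ₁ - σ := by linarith
    have hpe : p * (σ₁ - σ) = 4 * (σ₁ - σ₀) := by rw [hp, hϑe]; field_simp
    have hp4 : 4 < p := by
      rw [hp, lt_div_iff₀ (by linarith)]
      nlinarith
    have hpq : q - ε' ≤ p := by
      have : (q - ε') * (σ₁ - σ) ≤ p * (σ₁ - σ) := by rw [hpe]; exact hσ₁q
      exact le_of_mul_le_mul_right this hs1
    have hint : ∀ n : ℕ, ∫⁻ τ in Set.Icc ((2 : ℝ) ^ n) (2 * 2 ^ n),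
        ENNReal.ofReal (‖NN a w b (Real.pi / 2 - (1 / 2 : ℝ) ^ n) ((σ : ℂ) + (τ : ℂ) * I)‖ ^ p) ≤
        ENNReal.ofReal (C₀' * C₁ ^ (p - 4) * ((2 : ℝ) ^ n) ^ (p * (σ - 1 / 2) + (2 * β - 1) + ε / 2)) := by
      intro n
      set T : ℝ := (2 : ℝ) ^ n with hT
      have hT0 : 0 < T := by positivity
      obtain ⟨hθ0, hθ1⟩ := theta_bds n
      obtain ⟨Bd, hBd⟩ := NN_bdd ha hw hρ hρ1 h0 hθ0 hθ1 (σa := σ₀ - 1 / 4) (σb := σ₁ + 1 / 4)
        (by linarith) (by linarith)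
      have h1 := interp (N := NN a w b (Real.pi / 2 - (1 / 2 : ℝ) ^ n)) (σ₀ := σ₀) (σ₁ := σ₁)
        (c := 1 / 4) h01 (by norm_num) (fun s hs1 _ => NN_diff ha hw hρ hρ1 h0 _ (by linarith))
        hBd (S := Set.Icc T (2 * T)) measurableSet_Icc (by
          rw [Real.volume_Icc]
          exact ENNReal.ofReal_ne_top) (A₀ := C₀' * T ^ (4 * σ₀ + 2 * β - 3 + ε / 2))
        (A₁ := C₁ * T ^ (σ₁ - 1 / 2)) (by positivity) (by positivity) (hwinN n) (hright n)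
        hϑ0 hϑ1
      rw [hσe, ← hp] at h1
      refine le_trans (le_of_eq ?_) (h1.trans (ENNReal.ofReal_le_ofReal (le_of_eq ?_)))
      · refine lintegral_congr fun τ => ?_
        rw [← ofReal_norm, ENNReal.ofReal_rpow_of_nonneg (norm_nonneg _) (by linarith)]
      · rw [Real.mul_rpow hC₁ (by positivity), ← Real.rpow_mul hT0.le]
        have e1 : T ^ (4 * σ₀ + 2 * β - 3 + ε / 2) * T ^ ((σ₁ - 1 / 2) * (p - 4)) =
            T ^ (p * (σ - 1 / 2) + (2 * β - 1) + ε / 2) := by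
          rw [← Real.rpow_add hT0]
          congr 1
          linarith
        rw [← e1]
        ring
    have hC₁p : 0 ≤ C₁ ^ (p - 4) := by positivity
    rcases le_total q p with hqp | hqp
    · refine ⟨1 + C₀' * C₁ ^ (p - 4), by positivity, fun n => ?_⟩
      set T : ℝ := (2 : ℝ) ^ n with hT
      have hT0 : 0 < T := by positivity
      have hT1 : 1 ≤ T := one_le_pow₀ (by norm_num)
      refine (chg_le measurableSet_Icc (fun τ => norm_nonneg _) (by positivity) (hint n)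
        (by linarith : (0 : ℝ) ≤ q) hqp (lam := T ^ (σ - 1 / 2)) (by positivity) hT0.le (by
          rw [Real.volume_Icc]
          congr 1
          ring)).trans (ENNReal.ofReal_le_ofReal ?_)
      rw [← Real.rpow_mul hT0.le, ← Real.rpow_mul hT0.le]
      have e2 : T ^ ((σ - 1 / 2) * q) * T = T ^ (q * (σ - 1 / 2) + 1) := by
        nth_rewrite 2 [← Real.rpow_one T]
        rw [← Real.rpow_add hT0]
        congr 1
        ring
      have e3 : T ^ ((σ - 1 / 2) * (q - p)) * (C₀' * C₁ ^ (p - 4) *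
          T ^ (p * (σ - 1 / 2) + (2 * β - 1) + ε / 2)) =
          C₀' * C₁ ^ (p - 4) * T ^ (q * (σ - 1 / 2) + (2 * β - 1) + ε / 2) := by
        have : T ^ (q * (σ - 1 / 2) + (2 * β - 1) + ε / 2) = T ^ ((σ - 1 / 2) * (q - p)) *
            T ^ (p * (σ - 1 / 2) + (2 * β - 1) + ε / 2) := by
          rw [← Real.rpow_add hT0]
          congr 1
          ring
        rw [this]
        ring
      rw [e2, e3]
      have e4 : T ^ (q * (σ - 1 / 2) + 1) ≤ T ^ (q * (σ - 1 / 2) + (2 * β - 1) + ε) :=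
        Real.rpow_le_rpow_of_exponent_le hT1 (by linarith)
      have e5 : T ^ (q * (σ - 1 / 2) + (2 * β - 1) + ε / 2) ≤ T ^ (q * (σ - 1 / 2) + (2 * β - 1) + ε) :=
        Real.rpow_le_rpow_of_exponent_le hT1 (by linarith)
      calc _ ≤ T ^ (q * (σ - 1 / 2) + (2 * β - 1) + ε) +
            C₀' * C₁ ^ (p - 4) * T ^ (q * (σ - 1 / 2) + (2 * β - 1) + ε) := by gcongr
        _ = _ := by ring
    · refine ⟨C₂ ^ (q - p) * (C₀' * C₁ ^ (p - 4)), by positivity, fun n => ?_⟩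
      set T : ℝ := (2 : ℝ) ^ n with hT
      have hT0 : 0 < T := by positivity
      have hT1 : 1 ≤ T := one_le_pow₀ (by norm_num)
      refine (chg_ge measurableSet_Icc (fun τ => norm_nonneg _) (by positivity) (hint n)
        (by linarith) hqp (M := C₂ * T ^ B₂) (by positivity) (fun τ _ => hcrude n τ)).trans
        (ENNReal.ofReal_le_ofReal ?_)
      rw [Real.mul_rpow hC₂ (by positivity), ← Real.rpow_mul hT0.le]
      have e1 : T ^ (B₂ * (q - p)) * T ^ (p * (σ - 1 / 2) + (2 * β - 1) + ε / 2) ≤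
          T ^ (q * (σ - 1 / 2) + (2 * β - 1) + ε) := by
        rw [← Real.rpow_add hT0]
        apply Real.rpow_le_rpow_of_exponent_le hT1
        have h2 : 0 ≤ q - p := by linarith
        have h3 : q - p ≤ ε' := by linarith
        have h4 : B₂ * (q - p) ≤ ε / 2 := by
          calc B₂ * (q - p) ≤ B₂ * ε' := by gcongr
            _ ≤ ε / 2 := by rw [mul_comm]; exact hε'B
        have h5 : p * (σ - 1 / 2) ≤ q * (σ - 1 / 2) :=
          mul_le_mul_of_nonneg_right hqp (by linarith)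
        linarith
      calc C₂ ^ (q - p) * T ^ (B₂ * (q - p)) * (C₀' * C₁ ^ (p - 4) *
            T ^ (p * (σ - 1 / 2) + (2 * β - 1) + ε / 2)) =
          C₂ ^ (q - p) * (C₀' * C₁ ^ (p - 4)) * (T ^ (B₂ * (q - p)) *
            T ^ (p * (σ - 1 / 2) + (2 * β - 1) + ε / 2)) := by ring
        _ ≤ _ := by gcongr

/-- all moments of the zeta function -/
theorem FF_moment5 {σ₀ β : ℝ} (hσ₀h : 1 / 2 ≤ σ₀) (hβ : 1 ≤ β) (ha : 0 < a) (hw : ∀ j, 0 < w j)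
    (hc : Tay a w c) (hy : 0 < y₀) (hy1 : y₀ ≤ 1)
    (hyw : ∀ j, w j * (2 * Real.pi * y₀ / Real.cos 1) ≤ 1 / 2) {qq : ℕ}
    (hB : ∃ B : ℝ, 0 ≤ B ∧ ∀ n : ℕ,
      ∑ j ∈ Finset.range (2 * n + 1), ∫⁻ ξ : ℝ,
        ‖𝓕 (kb a w σ₀ ((1 / 2 : ℝ) ^ n) (y₀ * 2 ^ j)) ξ‖ₑ ^ 4 ≤
      ENNReal.ofReal (B * ((n : ℝ) + 1) ^ qq * ((2 : ℝ) ^ n) ^ (4 * σ₀ + 2 * β - 3)))
    {k : ℕ} {σ : ℝ} (hk : 2 ≤ k) (hσ0 : σ₀ ≤ σ) (hσk : k * (r - σ) ≤ 2 * (r - σ₀))
    (hcase : σ₀ < r ∨ k = 2) {ε : ℝ} (hε : 0 < ε) : ∃ C : ℝ, 0 ≤ C ∧ ∀ T : ℝ, 1 ≤ T →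
      ∫⁻ t in Set.Icc 1 T, ‖FF a w c ((σ : ℂ) + (t : ℂ) * I)‖ₑ ^ (2 * k) ≤
      ENNReal.ofReal (C * T ^ (2 * β - 1 + ε)) := by
  obtain ⟨b, ρ, C₀, hρ, hρ1, hC₀, h0⟩ := exists_near a hw
  have hk' : (2 : ℝ) ≤ k := by exact_mod_cast hk
  have hk0 : (0 : ℝ) < k := by linarith
  have hσh : 1 / 2 ≤ σ := by linarith
  set ε₁ : ℝ := min ε 1 with hε₁
  have hε₁0 : 0 < ε₁ := lt_min hε one_pos
  have hε₁ε : ε₁ ≤ ε := min_le_left _ _
  obtain ⟨C₁, hC₁, hN⟩ := NN_moment5 hσ₀h hβ ha hw hc hρ hρ1 h0 hy hy1 hyw hB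
    (q := 2 * (k : ℝ)) (σ := σ) (by linarith) hσ0 (by linarith) (by
      rcases hcase with h | h
      · exact Or.inl h
      · right
        rw [h]
        norm_num) (ε := ε₁) hε₁0 (min_le_right _ _)
  obtain ⟨C₂, hC₂, hF⟩ := FF_le_NN ha hw hc hρ hρ1 h0 hσh
  have hpiece : ∀ n : ℕ, ∫⁻ t in Set.Icc ((2 : ℝ) ^ n) (2 * 2 ^ n),
      ‖FF a w c ((σ : ℂ) + (t : ℂ) * I)‖ₑ ^ (2 * k) ≤
      ENNReal.ofReal ((C₂ ^ (2 * k) * 2 ^ (2 * k) * (C₁ + 1)) * ((2 : ℝ) ^ n) ^ (2 * β - 1 + ε)) := by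
    intro n
    set T : ℝ := (2 : ℝ) ^ n with hT
    have hT0 : 0 < T := by positivity
    have hT1 : 1 ≤ T := one_le_pow₀ (by norm_num)
    set X : ℝ → ℝ := fun t => ‖NN a w b (Real.pi / 2 - (1 / 2 : ℝ) ^ n) ((σ : ℂ) + (t : ℂ) * I)‖
      with hX
    have hTσ : 0 < T ^ (1 / 2 - σ) := by positivity
    calc ∫⁻ t in Set.Icc T (2 * T), ‖FF a w c ((σ : ℂ) + (t : ℂ) * I)‖ₑ ^ (2 * k)
        ≤ ∫⁻ t in Set.Icc T (2 * T), (ENNReal.ofReal (C₂ ^ (2 * k) * 2 ^ (2 * k) *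
          (T ^ (1 / 2 - σ)) ^ (2 * k)) * ENNReal.ofReal (X t ^ (2 * (k : ℝ))) +
          ENNReal.ofReal (C₂ ^ (2 * k) * 2 ^ (2 * k))) := by
          refine setLIntegral_mono' measurableSet_Icc fun t ht => ?_
          have hX0 : 0 ≤ X t := norm_nonneg _
          have h1 := hF n t ht
          rw [← ofReal_norm, ← ENNReal.ofReal_pow (norm_nonneg _), ← ENNReal.ofReal_mul
            (by positivity), ← ENNReal.ofReal_add (by positivity) (by positivity)]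
          apply ENNReal.ofReal_le_ofReal
          have e1 : X t ^ (2 * (k : ℝ)) = X t ^ (2 * k) := by
            rw [← Real.rpow_natCast]
            congr 1
            push_cast
            ring
          rw [e1]
          have h2 : (T ^ (1 / 2 - σ) * X t + 1) ^ (2 * k) ≤
              2 ^ (2 * k) * ((T ^ (1 / 2 - σ) * X t) ^ (2 * k) + 1) := by
            set Y := T ^ (1 / 2 - σ) * X t with hY
            have hY0 : 0 ≤ Y := by positivity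
            rcases le_total Y 1 with h3 | h3
            · calc (Y + 1) ^ (2 * k) ≤ 2 ^ (2 * k) := by
                    apply pow_le_pow_left₀ (by positivity)
                    linarith
                _ ≤ 2 ^ (2 * k) * (Y ^ (2 * k) + 1) := by
                    apply le_mul_of_one_le_right (by positivity)
                    have : 0 ≤ Y ^ (2 * k) := by positivity
                    linarith
            · calc (Y + 1) ^ (2 * k) ≤ (2 * Y) ^ (2 * k) := by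
                    apply pow_le_pow_left₀ (by positivity)
                    linarith
                _ = 2 ^ (2 * k) * Y ^ (2 * k) := mul_pow _ _ _
                _ ≤ _ := by
                    gcongr
                    linarith
          calc ‖FF a w c ((σ : ℂ) + (t : ℂ) * I)‖ ^ (2 * k) ≤
              (C₂ * (T ^ (1 / 2 - σ) * X t + 1)) ^ (2 * k) := by
                gcongr
            _ = C₂ ^ (2 * k) * (T ^ (1 / 2 - σ) * X t + 1) ^ (2 * k) := mul_pow _ _ _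
            _ ≤ C₂ ^ (2 * k) * (2 ^ (2 * k) * ((T ^ (1 / 2 - σ) * X t) ^ (2 * k) + 1)) := by
                gcongr
            _ = _ := by
                rw [mul_pow (T ^ (1 / 2 - σ))]
                ring
      _ = ENNReal.ofReal (C₂ ^ (2 * k) * 2 ^ (2 * k) * (T ^ (1 / 2 - σ)) ^ (2 * k)) *
          (∫⁻ t in Set.Icc T (2 * T), ENNReal.ofReal (X t ^ (2 * (k : ℝ)))) +
          ENNReal.ofReal (C₂ ^ (2 * k) * 2 ^ (2 * k)) * ENNReal.ofReal T := by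
          rw [lintegral_add_right _ measurable_const, lintegral_const_mul' _ _
            ENNReal.ofReal_ne_top, setLIntegral_const, Real.volume_Icc]
          congr 3
          ring
      _ ≤ ENNReal.ofReal (C₂ ^ (2 * k) * 2 ^ (2 * k) * (T ^ (1 / 2 - σ)) ^ (2 * k)) *
          ENNReal.ofReal (C₁ * T ^ (2 * (k : ℝ) * (σ - 1 / 2) + (2 * β - 1) + ε₁)) +
          ENNReal.ofReal (C₂ ^ (2 * k) * 2 ^ (2 * k)) * ENNReal.ofReal T := by
          gcongr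
          exact hN n
      _ = ENNReal.ofReal (C₂ ^ (2 * k) * 2 ^ (2 * k) * (T ^ (1 / 2 - σ)) ^ (2 * k) *
          (C₁ * T ^ (2 * (k : ℝ) * (σ - 1 / 2) + (2 * β - 1) + ε₁)) +
          C₂ ^ (2 * k) * 2 ^ (2 * k) * T) := by
          rw [← ENNReal.ofReal_mul (by positivity), ← ENNReal.ofReal_mul (by positivity),
            ← ENNReal.ofReal_add (by positivity) (by positivity)]
      _ ≤ _ := by
          apply ENNReal.ofReal_le_ofReal
          have e2 : (T ^ (1 / 2 - σ)) ^ (2 * k) * T ^ (2 * (k : ℝ) * (σ - 1 / 2) + (2 * β - 1) + ε₁) =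
              T ^ (2 * β - 1 + ε₁) := by
            rw [← Real.rpow_natCast (T ^ (1 / 2 - σ)), ← Real.rpow_mul hT0.le,
              ← Real.rpow_add hT0]
            congr 1
            push_cast
            ring
          have e3 : T ^ (2 * β - 1 + ε₁) ≤ T ^ (2 * β - 1 + ε) :=
            Real.rpow_le_rpow_of_exponent_le hT1 (by linarith)
          have e4 : T ≤ T ^ (2 * β - 1 + ε) := by
            calc T = T ^ (1 : ℝ) := (Real.rpow_one T).symm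
              _ ≤ T ^ (2 * β - 1 + ε) := Real.rpow_le_rpow_of_exponent_le hT1 (by linarith)
          calc _ = C₂ ^ (2 * k) * 2 ^ (2 * k) * (C₁ * ((T ^ (1 / 2 - σ)) ^ (2 * k) *
                T ^ (2 * (k : ℝ) * (σ - 1 / 2) + (2 * β - 1) + ε₁)) + T) := by ring
            _ = C₂ ^ (2 * k) * 2 ^ (2 * k) * (C₁ * T ^ (2 * β - 1 + ε₁) + T) := by rw [e2]
            _ ≤ C₂ ^ (2 * k) * 2 ^ (2 * k) * (C₁ * T ^ (2 * β - 1 + ε) + T ^ (2 * β - 1 + ε)) := by gcongr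
            _ = _ := by ring
  have hdy := dyadic (fun t : ℝ => ‖FF a w c ((σ : ℂ) + (t : ℂ) * I)‖ₑ ^ (2 * k))
    (C := C₂ ^ (2 * k) * 2 ^ (2 * k) * (C₁ + 1)) (τ := 2 * β - 1 + ε) (by positivity) (by linarith) hpiece
  refine ⟨C₂ ^ (2 * k) * 2 ^ (2 * k) * (C₁ + 1) * 2 ^ (2 * β - 1 + ε), by positivity, fun T hT => ?_⟩
  obtain ⟨n, hn1, hn2⟩ := exists_nat_pow_near hT (one_lt_two)
  calc _ ≤ ∫⁻ t in Set.Icc 1 ((2 : ℝ) ^ (n + 1)), ‖FF a w c ((σ : ℂ) + (t : ℂ) * I)‖ₑ ^ (2 * k) :=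
        lintegral_mono_set (Set.Icc_subset_Icc_right hn2.le)
    _ ≤ _ := hdy (n + 1)
    _ ≤ _ := by
        apply ENNReal.ofReal_le_ofReal
        have h1 : ((2 : ℝ) ^ (n + 1)) ^ (2 * β - 1 + ε) ≤ (T * 2) ^ (2 * β - 1 + ε) := by
          apply Real.rpow_le_rpow (by positivity) _ (by linarith)
          rw [pow_succ]
          linarith
        rw [Real.mul_rpow (by linarith) (by norm_num)] at h1
        calc _ ≤ (C₂ ^ (2 * k) * 2 ^ (2 * k) * (C₁ + 1)) * (T ^ (2 * β - 1 + ε) * 2 ^ (2 * β - 1 + ε)) := by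
              gcongr
          _ = _ := by ring

end

end Pool.Agent.T6.H79.BZ5
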