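import Pool.Agent.T6.H60.BD.F
import Pool.Agent.T6.H79.BZ4.Main
import Pool.Agent.T6.H79.BZ5.Fin5

set_option autoImplicit false

/-!
# Barnes zeta functions, fourth moment for all weights, part 6: almost all shifts
-/

namespace Pool.Agent.T6.H79.BZ5

open Finset Filter Topology MeasureTheory Complex FourierTransform Asymptotics
open Pool.Agent.H131R5.BZ Pool.Agent.Y930.Bz Pool.Agent.Y616.BM Pool.Agent.T6.H60.BC
open Pool.Agent.T6.H60.BD Pool.Agent.T6.H79.BZ4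

/-- change of the parameters in the pointwise criterion -/
lemma pt_change {r : ℕ} {w : Fin r → ℝ} {σ β σ' β' : ℝ} (h : PtB w σ β)
    (hβ : β + 2 * (σ - σ') ≤ β') (hσ : σ' ≤ σ) : PtB w σ' β' := by
  intro ε hε
  obtain ⟨C, hC, hb⟩ := h ε hε
  refine ⟨C, hC, fun y δ hy hδ hδ1 => (hb y δ hy hδ hδ1).trans ?_⟩
  have hy0 : 0 < y := by linarith
  have hyδ : 1 ≤ y / δ := by
    rw [le_div_iff₀ hδ]
    linarith
  have h1 : δ ^ (-(2 * σ)) = δ ^ (-(2 * σ')) * (1 / δ) ^ (2 * (σ - σ')) := by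
    rw [one_div, Real.inv_rpow hδ.le, ← Real.rpow_neg hδ.le, ← Real.rpow_add hδ]
    congr 1
    ring
  have h2 : (1 / δ) ^ (2 * (σ - σ')) ≤ (y / δ) ^ (2 * (σ - σ')) := by
    apply Real.rpow_le_rpow (by positivity) _ (by linarith)
    gcongr
  have h3 : (y / δ) ^ (2 * (σ - σ')) * (y / δ) ^ (β + ε) ≤ (y / δ) ^ (β' + ε) := by
    rw [← Real.rpow_add (by positivity)]
    exact Real.rpow_le_rpow_of_exponent_le hyδ (by linarith)
  rw [h1]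
  calc C * (δ ^ (-(2 * σ')) * (1 / δ) ^ (2 * (σ - σ'))) * (y / δ) ^ (β + ε) ≤
      C * (δ ^ (-(2 * σ')) * (y / δ) ^ (2 * (σ - σ'))) * (y / δ) ^ (β + ε) := by gcongr
    _ = C * δ ^ (-(2 * σ')) * ((y / δ) ^ (2 * (σ - σ')) * (y / δ) ^ (β + ε)) := by ring
    _ ≤ _ := by gcongr

/-- rational parameters -/
lemma exists_rat {σ β η : ℝ} (hσ : 1 / 2 ≤ σ) (hβ : 1 ≤ β) (hη : 0 < η) :
    ∃ σ' β' : ℚ, (1 / 2 : ℝ) ≤ σ' ∧ (σ' : ℝ) ≤ σ ∧ β + 2 * (σ - σ') ≤ β' ∧ (1 : ℝ) ≤ β' ∧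
      (β' : ℝ) ≤ β + 3 * η := by
  obtain ⟨σ', h1, h2, h3⟩ : ∃ σ' : ℚ, (1 / 2 : ℝ) ≤ σ' ∧ (σ' : ℝ) ≤ σ ∧ σ - η ≤ σ' := by
    rcases hσ.eq_or_lt with h | h
    · refine ⟨1 / 2, ?_, ?_, ?_⟩
      · push_cast
        exact le_rfl
      · push_cast
        linarith
      · push_cast
        linarith
    · obtain ⟨q, hq1, hq2⟩ := exists_rat_btwn (show max (1 / 2) (σ - η) < σ from
        max_lt h (by linarith))
      exact ⟨q, ((le_max_left _ _).trans_lt hq1).le, hq2.le, ((le_max_right _ _).trans_lt hq1).le⟩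
  obtain ⟨β', hb1, hb2⟩ := exists_rat_btwn (show β + 2 * (σ - σ') < β + 2 * (σ - σ') + η by
    linarith)
  exact ⟨σ', β', h1, h2, hb1.le, by linarith, by linarith⟩

/-- all moments for almost all shifts -/
theorem ae_moments5 {r : ℕ} (hr : 0 < r) {w : Fin r → ℝ} (hw : ∀ j, 0 < w j) :
    ∀ᵐ a : ℝ, 0 < a → ∀ c : ℕ → ℂ, Tay a w c → ∀ σ₀ β : ℝ, 1 / 2 ≤ σ₀ → 1 ≤ β → PtB w σ₀ β →
      ∀ (k : ℕ) (σ ε : ℝ), 2 ≤ k → σ₀ ≤ σ → k * (r - σ) ≤ 2 * (r - σ₀) → (σ₀ < r ∨ k = 2) →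
      0 < ε → ∃ C : ℝ, 0 ≤ C ∧ ∀ T : ℝ, 1 ≤ T →
        ∫⁻ t in Set.Icc 1 T, ‖FF a w c ((σ : ℂ) + (t : ℂ) * I)‖ₑ ^ (2 * k) ≤
        ENNReal.ofReal (C * T ^ (2 * β - 1 + ε)) := by
  have hc1 := Real.cos_one_pos
  have hpi := Real.pi_gt_three
  obtain ⟨W, hW1, hWj⟩ := exists_up (w := w)
  set y₀ : ℝ := Real.cos 1 / (4 * Real.pi * W) with hy₀
  have hy : 0 < y₀ := by positivity
  have hy1 : y₀ ≤ 1 := by
    rw [hy₀, div_le_one (by positivity)]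
    have h1 := Real.cos_le_one 1
    nlinarith
  have hyw : ∀ j, w j * (2 * Real.pi * y₀ / Real.cos 1) ≤ 1 / 2 := by
    intro j
    have h1 : 2 * Real.pi * y₀ / Real.cos 1 = 1 / (2 * W) := by
      rw [hy₀]
      field_simp
      ring
    rw [h1, mul_one_div, div_le_iff₀ (by positivity)]
    have := hWj j
    linarith
  have h1 : ∀ (σ' β' : ℚ) (N K : ℕ), (1 / 2 : ℝ) ≤ σ' → (1 : ℝ) ≤ β' → PtB w σ' β' →
      ∀ᵐ a : ℝ, 0 < a - 1 / ((N : ℝ) + 1) → ∃ B : ℝ, 0 ≤ B ∧ ∀ n : ℕ,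
      ∑ j ∈ Finset.range (2 * n + 1), ∫⁻ ξ : ℝ,
        ‖𝓕 (kb (1 / ((N : ℝ) + 1) + (a - 1 / ((N : ℝ) + 1))) w σ' ((1 / 2 : ℝ) ^ n)
          (y₀ * 2 ^ j)) ξ‖ₑ ^ 4 ≤
      ENNReal.ofReal (B * ((n : ℝ) + 1) ^ (5 * r + 4) *
        ((2 : ℝ) ^ n) ^ (4 * (σ' : ℝ) + 2 * ((β' : ℝ) + 1 / ((K : ℝ) + 1)) - 3)) := by
    intro σ' β' N K hσ' hβ' hpt
    exact ae_transl (ae_shift5 hr hw hσ' hβ' hpt (ε := 1 / ((K : ℝ) + 1)) (by positivity)
      (a := 1 / ((N : ℝ) + 1)) (by positivity) hy hy1) (1 / ((N : ℝ) + 1))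
  have h2 : ∀ᵐ a : ℝ, ∀ (σ' β' : ℚ) (N K : ℕ), (1 / 2 : ℝ) ≤ σ' → (1 : ℝ) ≤ β' → PtB w σ' β' →
      0 < a - 1 / ((N : ℝ) + 1) → ∃ B : ℝ, 0 ≤ B ∧ ∀ n : ℕ,
      ∑ j ∈ Finset.range (2 * n + 1), ∫⁻ ξ : ℝ,
        ‖𝓕 (kb (1 / ((N : ℝ) + 1) + (a - 1 / ((N : ℝ) + 1))) w σ' ((1 / 2 : ℝ) ^ n)
          (y₀ * 2 ^ j)) ξ‖ₑ ^ 4 ≤
      ENNReal.ofReal (B * ((n : ℝ) + 1) ^ (5 * r + 4) *
        ((2 : ℝ) ^ n) ^ (4 * (σ' : ℝ) + 2 * ((β' : ℝ) + 1 / ((K : ℝ) + 1)) - 3)) := by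
    simp only [ae_all_iff]
    exact h1
  filter_upwards [h2] with a ha ha0 c hc σ₀ β hσ₀ hβ hpt k σ ε hk hσ hσk hcase hε
  -- the shift
  obtain ⟨N, hN⟩ := exists_nat_gt (1 / a)
  have hNa : 1 / ((N : ℝ) + 1) < a := by
    rw [div_lt_iff₀ ha0] at hN
    rw [div_lt_iff₀ (by positivity)]
    nlinarith
  -- the parameters
  obtain ⟨σ', β', hs1, hs2, hb1, hb2, hb3⟩ := exists_rat hσ₀ hβ (show 0 < ε / 24 by positivity)
  obtain ⟨K, hK⟩ := exists_nat_ge (8 / ε)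
  have hK' : 1 / ((K : ℝ) + 1) ≤ ε / 8 := by
    rw [div_le_iff₀ hε] at hK
    rw [div_le_iff₀ (by positivity)]
    nlinarith
  have hK0 : 0 < 1 / ((K : ℝ) + 1) := by positivity
  have hpt' : PtB w σ' β' := pt_change hpt hb1 hs2
  have h3 := ha σ' β' N K hs1 hb2 hpt' (by linarith)
  have h4 : 1 / ((N : ℝ) + 1) + (a - 1 / ((N : ℝ) + 1)) = a := by ring
  rw [h4] at h3
  have hcase' : (σ' : ℝ) < r ∨ k = 2 := by
    rcases hcase with h | h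
    · exact Or.inl (hs2.trans_lt h)
    · exact Or.inr h
  obtain ⟨C, hC, hb⟩ := FF_moment5 (σ₀ := (σ' : ℝ)) (β := (β' : ℝ) + 1 / ((K : ℝ) + 1)) hs1
    (by linarith) ha0 hw hc hy hy1 hyw h3 hk (hs2.trans hσ) (by linarith) hcase'
    (ε := ε / 4) (by positivity)
  refine ⟨C, hC, fun T hT => (hb T hT).trans (ENNReal.ofReal_le_ofReal ?_)⟩
  apply mul_le_mul_of_nonneg_left _ hC
  apply Real.rpow_le_rpow_of_exponent_le hT
  linarith

/-- a bound for a higher moment implies a bound for the second moment -/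
theorem mom_one_of_mom' {r : ℕ} {Z : ℂ → ℂ}
    (hZ : ∀ s : ℂ, (∀ j : ℕ, 1 ≤ j → j ≤ r → s ≠ j) → DifferentiableAt ℂ Z s) {σ : ℝ} {k : ℕ}
    (hk : 1 ≤ k) {β ε : ℝ}
    (h : (fun T : ℝ => mom Z k σ T) =O[atTop] fun T : ℝ => T ^ (k * β - k + 1 + k * ε)) :
    (fun T : ℝ => mom Z 1 σ T) =O[atTop] fun T : ℝ => T ^ (β + ε) := by
  obtain ⟨C, hC⟩ := h.bound
  refine IsBigO.of_bound (1 + C) ?_
  filter_upwards [hC, eventually_ge_atTop 1] with T h1 hT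
  have hT0 : 0 < T := by linarith
  have hTp : 0 ≤ T ^ (β + ε) := by positivity
  have hTq : 0 ≤ T ^ (k * β - k + 1 + k * ε) := by positivity
  rw [Real.norm_of_nonneg (mom_nonneg Z k σ hT), Real.norm_of_nonneg hTq] at h1
  rw [Real.norm_of_nonneg (mom_nonneg Z 1 σ hT), Real.norm_of_nonneg hTp]
  have i1 : IntervalIntegrable (fun t : ℝ => ‖Z ((σ : ℂ) + t * Complex.I)‖ ^ (2 * k)) volume 1 T := by
    rw [intervalIntegrable_iff_integrableOn_Icc_of_le hT]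
    exact mom_intOn hZ σ _ T
  have i2 : IntervalIntegrable (fun t : ℝ => ‖Z ((σ : ℂ) + t * Complex.I)‖ ^ (2 * 1)) volume 1 T := by
    rw [intervalIntegrable_iff_integrableOn_Icc_of_le hT]
    exact mom_intOn hZ σ _ T
  obtain ⟨k', rfl⟩ : ∃ k', k = k' + 1 := ⟨k - 1, by omega⟩
  set lam : ℝ := T ^ (β - 1 + ε) with hlam
  have hl0 : 0 < lam := by positivity
  have h2 : mom Z 1 σ T ≤ (T - 1) * lam + (lam ^ k')⁻¹ * mom Z (k' + 1) σ T := by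
    unfold mom
    calc _ ≤ ∫ t in (1 : ℝ)..T, (lam + (lam ^ k')⁻¹ *
          ‖Z ((σ : ℂ) + t * Complex.I)‖ ^ (2 * (k' + 1))) := by
          refine intervalIntegral.integral_mono_on hT i2 (intervalIntegrable_const.add
            (i1.const_mul _)) fun t _ => ?_
          set x := ‖Z ((σ : ℂ) + t * Complex.I)‖ with hx
          have hx0 : 0 ≤ x := norm_nonneg _
          rcases le_total (x ^ 2) lam with h3 | h3
          · have : 0 ≤ (lam ^ k')⁻¹ * x ^ (2 * (k' + 1)) := by positivity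
            rw [mul_one]
            linarith
          · have h4 : lam ^ k' * x ^ 2 ≤ x ^ (2 * (k' + 1)) := by
              calc lam ^ k' * x ^ 2 ≤ (x ^ 2) ^ k' * x ^ 2 := by gcongr
                _ = _ := by rw [← pow_succ, ← pow_mul]
            have h5 : x ^ 2 ≤ (lam ^ k')⁻¹ * x ^ (2 * (k' + 1)) := by
              rw [← div_eq_inv_mul, le_div_iff₀ (by positivity)]
              linarith
            rw [mul_one]
            linarith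
      _ = _ := by
          rw [intervalIntegral.integral_add intervalIntegrable_const (i1.const_mul _),
            intervalIntegral.integral_const_mul]
          simp
  have h3 : (T - 1) * lam ≤ T ^ (β + ε) := by
    calc (T - 1) * lam ≤ T * lam := by gcongr; linarith
      _ = T ^ (β + ε) := by
          rw [hlam]
          nth_rewrite 1 [← Real.rpow_one T]
          rw [← Real.rpow_add hT0]
          congr 1
          ring
  have h4 : (lam ^ k')⁻¹ * mom Z (k' + 1) σ T ≤ C * T ^ (β + ε) := by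
    calc (lam ^ k')⁻¹ * mom Z (k' + 1) σ T ≤ (lam ^ k')⁻¹ *
          (C * T ^ (((k' + 1 : ℕ) : ℝ) * β - ((k' + 1 : ℕ) : ℝ) + 1 + ((k' + 1 : ℕ) : ℝ) * ε)) := by
          gcongr
      _ = C * ((lam ^ k')⁻¹ * T ^ (((k' + 1 : ℕ) : ℝ) * β - ((k' + 1 : ℕ) : ℝ) + 1 +
          ((k' + 1 : ℕ) : ℝ) * ε)) := by ring
      _ = _ := by
          congr 1
          rw [hlam, ← Real.rpow_natCast (T ^ _), ← Real.rpow_mul hT0.le, ← Real.rpow_neg hT0.le,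
            ← Real.rpow_add hT0]
          congr 1
          push_cast
          ring
  linarith

end Pool.Agent.T6.H79.BZ5
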